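import Pool.Agent.R450.Sp.Star

/-!
Good tuples are realisable.
-/

namespace Pool.Agent.R450.Sp

open Matrix Polynomial

/-- both vertices lie in the base -/
def FF {m : ℕ} {R : Type*} (i j : (Fin m ⊕ Unit) ⊕ R) : Prop :=
  ∃ a b : Fin m, i = Sum.inl (Sum.inl a) ∧ j = Sum.inl (Sum.inl b)

/-- the separation constant -/
noncomputable def R0 (m : ℕ) : ℝ := (((m : ℝ) + 1) ^ 2 * 2 ^ m) ^ 2

theorem one_le_R0 (m : ℕ) : 1 ≤ R0 m := by
  have h3 : (1 : ℝ) ≤ (m : ℝ) + 1 := by
    have : (0 : ℝ) ≤ m := Nat.cast_nonneg m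
    linarith
  have h4 : (1 : ℝ) ≤ 2 ^ m := one_le_pow₀ (by norm_num)
  have h5 : (1 : ℝ) ≤ ((m : ℝ) + 1) ^ 2 * 2 ^ m := by
    nlinarith [one_le_pow₀ (n := 2) h3]
  exact one_le_pow₀ h5

theorem rz_good {m : ℕ} {R : Type*} [Fintype R] [DecidableEq R] {μ : ℕ → ℝ}
    (hμ : ∀ k, 0 < μ k) (hsep : ∀ k, R0 m * μ (k + 1) ≤ μ k) {t : ℝ} (ht : 0 ≤ t)
    {s : Multiset ℝ} (hR : Fintype.card R = s.card + 1) (hs : ∀ a ∈ s, t ≤ a) :
    Rz (V := (Fin m ⊕ Unit) ⊕ R) FF (t ::ₘ ((Multiset.range m).map
      (fun k => μ k + (Fintype.card R : ℝ) * (t / ((m : ℝ) + 1 + Fintype.card R))) + s)) := by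
  have h1 := rz_star hμ hsep
  set w : ℝ := t / ((m : ℝ) + 1 + Fintype.card R) with hw
  have hden : (0 : ℝ) < (m : ℝ) + 1 + Fintype.card R := by positivity
  have hw0 : 0 ≤ w := by positivity
  have hwt : ((m : ℝ) + 1) * w ≤ t := by
    rw [hw, mul_div_assoc', div_le_iff₀ hden]
    have : (0 : ℝ) ≤ (Fintype.card R : ℝ) := Nat.cast_nonneg _
    nlinarith
  have h2 : Rz (V := R) (fun _ _ => False) (s.map (· - ((m : ℝ) + 1) * w)) := by
    apply rz_complete
    · rw [Multiset.card_map, hR]
    · intro a ha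
      obtain ⟨b, hb, rfl⟩ := Multiset.mem_map.1 ha
      have := hs b hb
      simp only [sub_nonneg]
      linarith
  have h3 := h1.join h2 hw0
  have e1 : ((((Fintype.card (Fin m ⊕ Unit) : ℕ) : ℝ) + ((Fintype.card R : ℕ) : ℝ)) * w) ::ₘ
      (((Multiset.range m).map μ).map (· + (Fintype.card R : ℕ) * w) +
        (s.map (· - ((m : ℝ) + 1) * w)).map (· + (Fintype.card (Fin m ⊕ Unit) : ℕ) * w))
      = t ::ₘ ((Multiset.range m).map (fun k => μ k + (Fintype.card R : ℝ) * w) + s) := by
    have hc : ((Fintype.card (Fin m ⊕ Unit) : ℕ) : ℝ) = (m : ℝ) + 1 := by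
      simp
    rw [hc]
    congr 1
    · rw [hw]
      field_simp
    · congr 1
      · rw [Multiset.map_map]
        rfl
      · rw [Multiset.map_map]
        conv_rhs => rw [← Multiset.map_id s]
        refine Multiset.map_congr rfl fun x _ => ?_
        simp
  rw [e1] at h3
  refine h3.mono ?_
  rintro i j ⟨a, b, rfl, rfl⟩
  left
  exact ⟨rfl, rfl⟩

/-- the window positions -/
noncomputable def win (m : ℕ) (a : ℝ) (k : ℕ) : ℝ := a / (4 * R0 m) ^ k

theorem win_pos {m : ℕ} {a : ℝ} (ha : 0 < a) (k : ℕ) : 0 < win m a k := by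
  have := one_le_R0 m
  unfold win
  positivity

theorem win_succ (m : ℕ) (a : ℝ) (k : ℕ) : 4 * R0 m * win m a (k + 1) = win m a k := by
  have := one_le_R0 m
  unfold win
  rw [pow_succ]
  field_simp

theorem win_step {m : ℕ} {a : ℝ} (ha : 0 < a) (k : ℕ) : 4 * win m a (k + 1) ≤ win m a k := by
  have h1 := one_le_R0 m
  have h2 := win_pos (m := m) ha (k + 1)
  have h3 := win_succ m a k
  nlinarith

theorem win_anti {m : ℕ} {a : ℝ} (ha : 0 < a) : Antitone (win m a) :=
  antitone_nat_of_succ_le fun k => by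
    have h1 := win_step (m := m) ha k
    have h2 := win_pos (m := m) ha (k + 1)
    linarith

theorem rz_tuple {m : ℕ} {R : Type*} [Fintype R] [DecidableEq R] {ι : Type*} [Fintype ι]
    (hι : Fintype.card ι = m + Fintype.card R) {x : ι → ℝ} (hx : ∀ i, 0 ≤ x i) {a : ℝ}
    (ha : 0 < a) (hwin : ∀ k, k < m → ∃ i, win m a k ≤ x i ∧ x i ≤ 2 * win m a k)
    (hmin : ∃ j, x j ≤ win m a m / 4) :
    Rz (V := (Fin m ⊕ Unit) ⊕ R) FF (Finset.univ.val.map x) := by
  classical
  obtain ⟨j0, hj0⟩ := hmin
  haveI : Nonempty ι := ⟨j0⟩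
  choose! i hi1 hi2 using hwin
  obtain ⟨i0, -, hi0⟩ := Finset.exists_min_image Finset.univ x ⟨j0, Finset.mem_univ _⟩
  have ht : x i0 ≤ win m a m / 4 := (hi0 j0 (Finset.mem_univ _)).trans hj0
  have hlt : ∀ j k, j < k → k < m → x (i k) < x (i j) := by
    intro j k hjk hk
    have h1 := hi2 k hk
    have h2 := hi1 j (by omega)
    have h3 := win_anti (m := m) ha (show j + 1 ≤ k from hjk)
    have h4 := win_step (m := m) ha j
    have h5 := win_pos (m := m) ha j
    linarith
  have hinj : Set.InjOn i (Finset.range m : Set ℕ) := by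
    intro j hj k hk hjk
    have hj' := Finset.mem_range.1 (Finset.mem_coe.1 hj)
    have hk' := Finset.mem_range.1 (Finset.mem_coe.1 hk)
    rcases lt_trichotomy j k with h | h | h
    · have := hlt j k h hk'
      rw [hjk] at this
      exact absurd this (lt_irrefl _)
    · exact h
    · have := hlt k j h hj'
      rw [hjk] at this
      exact absurd this (lt_irrefl _)
  set T : Finset ι := (Finset.range m).image i with hT
  have hTcard : T.card = m := by
    rw [hT, Finset.card_image_of_injOn hinj, Finset.card_range]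
  have hi0T : i0 ∉ T := by
    intro h
    obtain ⟨k, hk, hk2⟩ := Finset.mem_image.1 h
    have hk' := Finset.mem_range.1 hk
    have h1 := hi1 k hk'
    rw [hk2] at h1
    have h2 := win_anti (m := m) ha hk'.le
    have h3 := win_pos (m := m) ha m
    linarith
  set S : Finset ι := Finset.univ \ (insert i0 T) with hS
  have hdec : (Finset.univ : Finset ι).val = i0 ::ₘ (T.val + S.val) := by
    have h1 : (Finset.univ : Finset ι) = (insert i0 T).disjUnion S
        (by rw [hS]; exact Finset.disjoint_sdiff) := by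
      rw [Finset.disjUnion_eq_union, hS, Finset.union_sdiff_of_subset (Finset.subset_univ _)]
    rw [h1, Finset.disjUnion_val, Finset.insert_val_of_notMem hi0T, Multiset.cons_add]
  have hScard : S.card + 1 = Fintype.card R := by
    have h1 := congrArg Multiset.card hdec
    rw [Finset.card_val, Multiset.card_cons, Multiset.card_add, Finset.card_val, Finset.card_val,
      hTcard, Finset.card_univ, hι] at h1
    omega
  set t : ℝ := x i0 with htdef
  have ht0 : 0 ≤ t := hx i0
  set ρ : ℝ := (Fintype.card R : ℝ) * (t / ((m : ℝ) + 1 + Fintype.card R)) with hρ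
  have hden : (0 : ℝ) < (m : ℝ) + 1 + Fintype.card R := by positivity
  have hρ0 : 0 ≤ ρ := by positivity
  have hρt : ρ ≤ t := by
    rw [hρ, mul_div_assoc', div_le_iff₀ hden]
    have : (0 : ℝ) ≤ (m : ℝ) := Nat.cast_nonneg _
    nlinarith
  set μ : ℕ → ℝ := fun k => if k < m then x (i k) - ρ else win m a k with hμdef
  have hμ1 : ∀ k, 3 / 4 * win m a k ≤ μ k := by
    intro k
    have h0 := win_pos (m := m) ha k
    simp only [hμdef]
    split_ifs with h
    · have h1 := hi1 k h
      have h2 := win_anti (m := m) ha h.le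
      linarith
    · linarith
  have hμ2 : ∀ k, μ k ≤ 2 * win m a k := by
    intro k
    have h0 := win_pos (m := m) ha k
    simp only [hμdef]
    split_ifs with h
    · have h1 := hi2 k h
      linarith
    · linarith
  have h1 := rz_good (m := m) (R := R) (μ := μ) (fun k => by
      have := hμ1 k
      have := win_pos (m := m) ha k
      linarith) (fun k => by
      have h1 := hμ1 k
      have h2 := hμ2 (k + 1)
      have h3 := win_succ m a k
      have h4 := one_le_R0 m
      have h5 := win_pos (m := m) ha k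
      have h6 : R0 m * μ (k + 1) ≤ R0 m * (2 * win m a (k + 1)) :=
        mul_le_mul_of_nonneg_left h2 (by linarith)
      linarith) ht0 (s := S.val.map x) (by
      rw [Multiset.card_map, Finset.card_val, hScard]) (by
      intro b hb
      obtain ⟨j, _, rfl⟩ := Multiset.mem_map.1 hb
      exact hi0 j (Finset.mem_univ _))
  have e1 : t ::ₘ ((Multiset.range m).map (fun k => μ k + ρ) + S.val.map x)
      = Finset.univ.val.map x := by
    rw [hdec, Multiset.map_cons, Multiset.map_add]
    congr 2
    rw [hT, Finset.image_val_of_injOn hinj, Multiset.map_map]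
    refine Multiset.map_congr rfl fun k hk => ?_
    have hk' : k < m := Multiset.mem_range.1 hk
    simp only [hμdef, hk', if_true, Function.comp_apply]
    ring
  rw [← e1]
  exact h1

end Pool.Agent.R450.Sp
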