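import Pool.Agent.R450.Sp.Lim

/-!
The euclidean volume on the simplex in the hyperplane of sum one.
-/

namespace Pool.Agent.R450.Sp

open MeasureTheory Filter Topology Measure
open scoped ENNReal NNReal

/-- the simplex of nonnegative vectors of sum one -/
def RR (k : ℕ) : Set (EuclideanSpace ℝ (Fin k)) := {l | (∀ i, 0 ≤ l i) ∧ ∑ i, l i = 1}

/-- the linear part -/
noncomputable def phiL (d : ℕ) : (Fin d → ℝ) →ₗ[ℝ] EuclideanSpace ℝ (Fin (d + 1)) where
  toFun x := WithLp.toLp 2 (Fin.cons (-∑ i, x i) x : Fin (d + 1) → ℝ)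
  map_add' x y := by
    ext i
    refine Fin.cases ?_ (fun j => ?_) i
    · simp [Finset.sum_add_distrib]
      ring
    · simp
  map_smul' c x := by
    ext i
    refine Fin.cases ?_ (fun j => ?_) i
    · simp [← Finset.mul_sum]
    · simp

/-- the parametrisation -/
noncomputable def phi (d : ℕ) (x : Fin d → ℝ) : EuclideanSpace ℝ (Fin (d + 1)) :=
  WithLp.toLp 2 (Fin.cons (1 - ∑ i, x i) x : Fin (d + 1) → ℝ)

theorem phi_zero_apply (d : ℕ) (x : Fin d → ℝ) : phi d x 0 = 1 - ∑ i, x i := rfl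

theorem phi_succ_apply (d : ℕ) (x : Fin d → ℝ) (i : Fin d) : phi d x i.succ = x i := rfl

theorem phi_add (d : ℕ) (g x : Fin d → ℝ) : phi d (g + x) = phiL d g + phi d x := by
  ext i
  refine Fin.cases ?_ (fun j => ?_) i
  · simp only [PiLp.add_apply, phi_zero_apply, Pi.add_apply, Finset.sum_add_distrib]
    change _ = (-∑ i, g i) + _
    ring
  · simp only [PiLp.add_apply, phi_succ_apply, Pi.add_apply]
    rfl

/-- the coordinate projection -/
noncomputable def prj (d : ℕ) : EuclideanSpace ℝ (Fin (d + 1)) →ₗ[ℝ] (Fin d → ℝ) where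
  toFun l i := l i.succ
  map_add' x y := by
    ext i
    simp
  map_smul' c x := by
    ext i
    simp

theorem prj_phi (d : ℕ) (x : Fin d → ℝ) : prj d (phi d x) = x := rfl

theorem phi_inj (d : ℕ) : Function.Injective (phi d) := by
  intro x y h
  rw [← prj_phi d x, h, prj_phi]

theorem phi_lip (d : ℕ) : ∃ K : ℝ≥0, LipschitzWith K (phi d) := by
  refine ⟨‖(phiL d).toContinuousLinearMap‖₊, ?_⟩
  have h := (phiL d).toContinuousLinearMap.lipschitz
  intro x y
  have e : ∀ z, phi d z = phi d 0 + phiL d z := by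
    intro z
    have := phi_add d z 0
    rw [add_zero] at this
    rw [this]
    exact add_comm _ _
  rw [e x, e y, edist_add_left]
  exact h x y

theorem prj_lip (d : ℕ) : ∃ K : ℝ≥0, LipschitzWith K (prj d) :=
  ⟨_, (prj d).toContinuousLinearMap.lipschitz⟩

theorem phi_meas (d : ℕ) : MeasurableEmbedding (phi d) := by
  obtain ⟨K, hK⟩ := phi_lip d
  exact hK.continuous.measurableEmbedding (phi_inj d)

/-- the pulled back volume -/
noncomputable def mu' (d : ℕ) : Measure (Fin d → ℝ) :=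
  Measure.comap (phi d) (μHE[d] : Measure (EuclideanSpace ℝ (Fin (d + 1))))

theorem mu'_apply (d : ℕ) (s : Set (Fin d → ℝ)) : mu' d s = μHE[d] (phi d '' s) :=
  (phi_meas d).comap_apply _ _

instance (d : ℕ) : IsAddLeftInvariant (mu' d) := by
  constructor
  intro g
  ext s hs
  rw [Measure.map_apply (measurable_const_add g) hs, mu'_apply, mu'_apply]
  have e : phi d '' ((fun x => g + x) ⁻¹' s) = (fun y => -phiL d g + y) '' (phi d '' s) := by
    ext l
    constructor
    · rintro ⟨x, hx, rfl⟩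
      refine ⟨phi d (g + x), ⟨g + x, hx, rfl⟩, ?_⟩
      simp only
      rw [phi_add, neg_add_cancel_left]
    · rintro ⟨_, ⟨y, hy, rfl⟩, rfl⟩
      refine ⟨-g + y, ?_, ?_⟩
      · simpa using hy
      · simp only
        rw [phi_add, map_neg]
  rw [e, Isometry.euclideanHausdorffMeasure_image (isometry_add_left _)]

instance (d : ℕ) : IsFiniteMeasureOnCompacts (mu' d) := by
  constructor
  intro K hK
  obtain ⟨C, hC⟩ := phi_lip d
  rw [mu'_apply, euclideanHausdorffMeasure_def, Measure.smul_apply]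
  have h1 := hC.hausdorffMeasure_image_le (d := (d : ℝ)) (Nat.cast_nonneg d) K
  have h2 : μH[(d : ℝ)] K = volume K := by
    have := hausdorffMeasure_pi_real (ι := Fin d)
    rw [Fintype.card_fin] at this
    rw [this]
  rw [h2] at h1
  have h3 : μH[(d : ℝ)] (phi d '' K) < ∞ := by
    refine lt_of_le_of_lt h1 ?_
    apply ENNReal.mul_lt_top _ hK.measure_lt_top
    exact ENNReal.rpow_lt_top_of_nonneg (Nat.cast_nonneg d) ENNReal.coe_ne_top
  rw [ENNReal.smul_def, smul_eq_mul]
  exact ENNReal.mul_lt_top ENNReal.coe_lt_top h3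

theorem mu'_SS_ne (d : ℕ) : mu' d (SS d) ≠ 0 := by
  rw [mu'_apply, euclideanHausdorffMeasure_def, Measure.smul_apply, ENNReal.smul_def, smul_eq_mul]
  apply mul_ne_zero
  · exact ENNReal.coe_ne_zero.2 (addHaarScalarFactor_volume_hausdorffMeasure_ne_zero d)
  · intro h
    obtain ⟨C, hC⟩ := prj_lip d
    have h1 := hC.hausdorffMeasure_image_le (d := (d : ℝ)) (Nat.cast_nonneg d) (phi d '' SS d)
    rw [h, mul_zero, Set.image_image] at h1
    simp only [prj_phi, Set.image_id'] at h1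
    have h2 : μH[(d : ℝ)] (SS d) = volume (SS d) := by
      have := hausdorffMeasure_pi_real (ι := Fin d)
      rw [Fintype.card_fin] at this
      rw [this]
    rw [h2] at h1
    exact absurd h1 (not_le.2 (SS_pos d))

theorem mu'_eq {d : ℕ} : ∃ c : ℝ≥0, c ≠ 0 ∧ ∀ s : Set (Fin d → ℝ), s ⊆ SS d →
    μHE[d] (phi d '' s) = c * volume s := by
  have hcomp : IsCompact (SS d) := isCompact_Icc.of_isClosed_subset (SS_closed d) (SS_sub d)
  have h1 : ∀ s : Set (Fin d → ℝ), s ⊆ SS d →
      μHE[d] (phi d '' s) = addHaarScalarFactor (mu' d) volume * volume s := by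
    intro s hs
    rw [← mu'_apply]
    have h2 := measure_isAddInvariant_eq_smul_of_isCompact_closure (mu' d) volume (s := s)
      (hcomp.closure_of_subset hs)
    rw [h2, ENNReal.smul_def, smul_eq_mul]
  refine ⟨addHaarScalarFactor (mu' d) volume, ?_, h1⟩
  intro h0
  have h3 := h1 (SS d) le_rfl
  rw [← mu'_apply, h0] at h3
  simp only [ENNReal.coe_zero, zero_mul] at h3
  exact mu'_SS_ne d h3

theorem phi_SS (d : ℕ) : RR (d + 1) = phi d '' SS d := by
  ext l
  constructor
  · rintro ⟨h1, h2⟩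
    rw [Fin.sum_univ_succ] at h2
    refine ⟨fun i => l i.succ, ⟨fun i => h1 _, ?_⟩, ?_⟩
    · have := h1 0
      linarith
    · ext i
      refine Fin.cases ?_ (fun j => ?_) i
      · rw [phi_zero_apply]
        linarith
      · rw [phi_succ_apply]
  · rintro ⟨x, ⟨h1, h2⟩, rfl⟩
    refine ⟨?_, ?_⟩
    · intro i
      refine Fin.cases ?_ (fun j => ?_) i
      · rw [phi_zero_apply]
        linarith
      · rw [phi_succ_apply]
        exact h1 j
    · rw [Fin.sum_univ_succ]
      simp only [phi_zero_apply, phi_succ_apply]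
      ring

/-- the proportion of the simplex occupied by the tuples whose multiset has a property -/
noncomputable def prop (k : ℕ) (Q : Multiset ℝ → Prop) : ℝ :=
  (μHE[k - 1] {l | l ∈ RR k ∧ Q (Finset.univ.val.map l)} / μHE[k - 1] (RR k)).toReal

theorem prop_eq (d : ℕ) (Q : Multiset ℝ → Prop) : prop (d + 1) Q =
    (volume {x | x ∈ SS d ∧ Q ((1 - ∑ i, x i) ::ₘ Finset.univ.val.map x)} /
      volume (SS d)).toReal := by
  obtain ⟨c, hc, h⟩ := mu'_eq (d := d)
  unfold prop
  rw [Nat.add_sub_cancel]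
  have e1 : {l | l ∈ RR (d + 1) ∧ Q (Finset.univ.val.map l)}
      = phi d '' {x | x ∈ SS d ∧ Q ((1 - ∑ i, x i) ::ₘ Finset.univ.val.map x)} := by
    have hm : ∀ x : Fin d → ℝ, Finset.univ.val.map (phi d x)
        = (1 - ∑ i, x i) ::ₘ Finset.univ.val.map x := by
      intro x
      rw [Fin.univ_succ, Finset.cons_val, Multiset.map_cons, Finset.map_val, Multiset.map_map]
      rfl
    rw [phi_SS]
    ext l
    constructor
    · rintro ⟨⟨x, hx, rfl⟩, hQ⟩
      rw [hm] at hQ
      exact ⟨x, ⟨hx, hQ⟩, rfl⟩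
    · rintro ⟨x, ⟨hx, hQ⟩, rfl⟩
      refine ⟨⟨x, hx, rfl⟩, ?_⟩
      rw [hm]
      exact hQ
  rw [e1, phi_SS, h _ (fun x hx => hx.1), h _ le_rfl]
  congr 1
  exact ENNReal.mul_div_mul_left _ _ (ENNReal.coe_ne_zero.2 hc) ENNReal.coe_ne_top

theorem prop_le_one (d : ℕ) (Q : Multiset ℝ → Prop) : prop (d + 1) Q ≤ 1 := by
  rw [prop_eq]
  have h1 : volume {x | x ∈ SS d ∧ Q ((1 - ∑ i, x i) ::ₘ Finset.univ.val.map x)} / volume (SS d)
      ≤ 1 := by
    rw [ENNReal.div_le_iff (SS_pos d).ne' (SS_lt_top d).ne, one_mul]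
    exact measure_mono fun x hx => hx.1
  exact (ENNReal.toReal_mono ENNReal.one_ne_top h1).trans_eq ENNReal.toReal_one

theorem prop_ge {d : ℕ} {Q : Multiset ℝ → Prop} {A : Set (Fin d → ℝ)} (hA : MeasurableSet A)
    (h : ∀ x ∈ SS d, x ∈ A → Q ((1 - ∑ i, x i) ::ₘ Finset.univ.val.map x)) :
    (nu d).real A ≤ prop (d + 1) Q := by
  rw [prop_eq, measureReal_def, nu_apply hA, ENNReal.div_eq_inv_mul]
  apply ENNReal.toReal_mono
  · apply ENNReal.mul_ne_top
    · exact ENNReal.inv_ne_top.2 (SS_pos d).ne'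
    · exact (lt_of_le_of_lt (measure_mono fun x hx => hx.1) (SS_lt_top d)).ne
  · gcongr
    rintro x ⟨h1, h2⟩
    exact ⟨h1, h x h1 h2⟩

end Pool.Agent.R450.Sp
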