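import Mathlib

/-!
Weighted Laplacians: the characteristic polynomial of a join.
-/

namespace Pool.Agent.R450.Sp

open Matrix Polynomial

/-- the weighted Laplacian -/
noncomputable def lap {V : Type*} [Fintype V] [DecidableEq V] (w : V → V → ℝ) : Matrix V V ℝ :=
  Matrix.diagonal (fun i => ∑ j, w i j) - Matrix.of w

theorem lap_row {V : Type*} [Fintype V] [DecidableEq V] (w : V → V → ℝ) :
    lap w *ᵥ (fun _ => (1 : ℝ)) = 0 := by
  ext i
  simp only [lap, Matrix.sub_mulVec, Pi.sub_apply, Matrix.mulVec_diagonal, mul_one, Pi.zero_apply]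
  simp [Matrix.mulVec, dotProduct]

/-- the all ones matrix -/
def Jm (a b : Type*) : Matrix a b ℝ := Matrix.of fun _ _ => 1

variable {b r : Type*} [Fintype b] [DecidableEq b] [Fintype r] [DecidableEq r]

theorem mul_J {c : Type*} {A : Matrix b b ℝ} {a : ℝ}
    (hA : A *ᵥ (fun _ => (1 : ℝ)) = fun _ => a) : A * Jm b c = a • Jm b c := by
  ext i j
  have h := congrFun hA i
  simp only [Matrix.mulVec, dotProduct, mul_one] at h
  simp [Jm, Matrix.mul_apply, h]

theorem det_one_sub_J (c : ℝ) : (1 - c • Jm r r).det = 1 - c * Fintype.card r := by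
  have h1 : c • Jm r r = (Matrix.of fun _ _ => c : Matrix r Unit ℝ) *
      (Matrix.of fun _ _ => 1 : Matrix Unit r ℝ) := by
    ext i j
    simp [Jm, Matrix.mul_apply]
  rw [h1, Matrix.det_one_sub_mul_comm, Matrix.det_unique]
  simp [Matrix.mul_apply, Matrix.sub_apply]
  ring

theorem join_det (A : Matrix b b ℝ) (D : Matrix r r ℝ) {a d : ℝ} (w : ℝ)
    (hA : A *ᵥ (fun _ => (1 : ℝ)) = fun _ => a) (hD : D *ᵥ (fun _ => (1 : ℝ)) = fun _ => d)
    (ha : a ≠ 0) (hd : d ≠ 0) :
    (fromBlocks A (w • Jm b r) (w • Jm r b) D).det * (a * d)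
      = A.det * D.det * (a * d - w ^ 2 * (Fintype.card b * Fintype.card r)) := by
  have h1 : fromBlocks A (w • Jm b r) (w • Jm r b) D
      = fromBlocks A 0 0 D * fromBlocks 1 ((w / a) • Jm b r) ((w / d) • Jm r b) 1 := by
    rw [Matrix.fromBlocks_multiply]
    simp only [Matrix.mul_one, Matrix.zero_mul, add_zero, zero_add, Matrix.mul_smul, mul_J hA,
      mul_J hD, smul_smul, smul_zero]
    rw [div_mul_cancel₀ _ ha, div_mul_cancel₀ _ hd]
  have h2 : (w / d) • Jm r b * ((w / a) • Jm b r)
      = ((w / d) * (w / a) * Fintype.card b) • Jm r r := by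
    ext i j
    simp [Jm, Matrix.mul_apply]
    ring
  rw [h1, Matrix.det_mul, Matrix.det_fromBlocks_zero₂₁, Matrix.det_fromBlocks_one₁₁, h2,
    det_one_sub_J]
  field_simp

/-- the joined matrix -/
noncomputable def joinM (LB : Matrix b b ℝ) (LR : Matrix r r ℝ) (w : ℝ) :
    Matrix (b ⊕ r) (b ⊕ r) ℝ :=
  fromBlocks (LB + (Fintype.card r * w) • (1 : Matrix b b ℝ)) (-(w • Jm b r))
    (-(w • Jm r b)) (LR + (Fintype.card b * w) • (1 : Matrix r r ℝ))

theorem join_charpoly (LB : Matrix b b ℝ) (LR : Matrix r r ℝ) (w : ℝ)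
    (hB : LB *ᵥ (fun _ => (1 : ℝ)) = 0) (hR : LR *ᵥ (fun _ => (1 : ℝ)) = 0) :
    (joinM LB LR w).charpoly *
      ((X - C (Fintype.card r * w)) * (X - C (Fintype.card b * w)))
      = LB.charpoly.comp (X - C (Fintype.card r * w)) *
        LR.charpoly.comp (X - C (Fintype.card b * w)) *
        (X * (X - C ((Fintype.card b + Fintype.card r) * w))) := by
  apply Polynomial.eq_of_infinite_eval_eq
  have hfin : ({(Fintype.card r * w : ℝ), (Fintype.card b * w : ℝ)} : Set ℝ).Finite :=
    Set.toFinite _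
  refine hfin.infinite_compl.mono ?_
  intro x hx
  have hx1 : x - Fintype.card r * w ≠ 0 := by
    intro h
    apply hx
    left
    linarith
  have hx2 : x - Fintype.card b * w ≠ 0 := by
    intro h
    apply hx
    right
    simp only [Set.mem_singleton_iff]
    linarith
  change eval x _ = eval x _
  simp only [eval_mul, eval_sub, eval_X, eval_C, eval_comp,
    Matrix.eval_charpoly]
  have e1 : Matrix.scalar (b ⊕ r) x - joinM LB LR w
      = fromBlocks (Matrix.scalar b (x - Fintype.card r * w) - LB) (w • Jm b r) (w • Jm r b)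
        (Matrix.scalar r (x - Fintype.card b * w) - LR) := by
    unfold joinM
    ext i j
    rcases i with i | i <;> rcases j with j | j
    · by_cases h : i = j
      · subst h
        simp
        ring
      · simp [h]
    · simp
    · simp
    · by_cases h : i = j
      · subst h
        simp
        ring
      · simp [h]
  have hA : (Matrix.scalar b (x - Fintype.card r * w) - LB) *ᵥ (fun _ => (1 : ℝ))
      = fun _ => (x - Fintype.card r * w) := by
    rw [Matrix.sub_mulVec, hB, sub_zero]
    ext i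
    simp
  have hD : (Matrix.scalar r (x - Fintype.card b * w) - LR) *ᵥ (fun _ => (1 : ℝ))
      = fun _ => (x - Fintype.card b * w) := by
    rw [Matrix.sub_mulVec, hR, sub_zero]
    ext i
    simp
  rw [e1, join_det _ _ w hA hD hx1 hx2]
  ring

/-- the polynomial with the given roots -/
noncomputable def mp (s : Multiset ℝ) : ℝ[X] := (s.map fun a => X - C a).prod

theorem mp_comp (s : Multiset ℝ) (c : ℝ) : (mp s).comp (X - C c) = mp (s.map (· + c)) := by
  unfold mp
  rw [Polynomial.multiset_prod_comp, Multiset.map_map, Multiset.map_map]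
  congr 1
  refine Multiset.map_congr rfl fun a _ => ?_
  simp
  ring

theorem mp_cons (a : ℝ) (s : Multiset ℝ) : mp (a ::ₘ s) = (X - C a) * mp s := by
  simp [mp]

theorem mp_add (s t : Multiset ℝ) : mp (s + t) = mp s * mp t := by
  simp [mp]

theorem mp_zero : mp 0 = 1 := by simp [mp]

theorem join_spec {LB : Matrix b b ℝ} {LR : Matrix r r ℝ} (w : ℝ)
    (hB : LB *ᵥ (fun _ => (1 : ℝ)) = 0) (hR : LR *ᵥ (fun _ => (1 : ℝ)) = 0)
    {s t : Multiset ℝ} (hs : LB.charpoly = X * mp s) (ht : LR.charpoly = X * mp t) :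
    (joinM LB LR w).charpoly = X * mp (((Fintype.card b + Fintype.card r) * w) ::ₘ
      (s.map (· + Fintype.card r * w) + t.map (· + Fintype.card b * w))) := by
  have h := join_charpoly LB LR w hB hR
  rw [hs, ht, Polynomial.mul_comp, Polynomial.mul_comp, Polynomial.X_comp, Polynomial.X_comp,
    mp_comp, mp_comp] at h
  have h1 : (X - C (Fintype.card r * w : ℝ)) * (X - C (Fintype.card b * w : ℝ)) ≠ 0 :=
    mul_ne_zero (X_sub_C_ne_zero _) (X_sub_C_ne_zero _)
  apply mul_right_cancel₀ h1
  rw [h, mp_cons, mp_add]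
  ring

/-- joined weights -/
noncomputable def joinW (u : b → b → ℝ) (v : r → r → ℝ) (w : ℝ) : b ⊕ r → b ⊕ r → ℝ
  | Sum.inl i, Sum.inl j => u i j
  | Sum.inr i, Sum.inr j => v i j
  | Sum.inl _, Sum.inr _ => w
  | Sum.inr _, Sum.inl _ => w

theorem lap_joinW (u : b → b → ℝ) (v : r → r → ℝ) (w : ℝ) :
    lap (joinW u v w) = joinM (lap u) (lap v) w := by
  unfold joinM lap
  ext i j
  rcases i with i | i <;> rcases j with j | j
  · by_cases h : i = j
    · subst h
      simp [joinW, Fintype.sum_sum_type]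
      ring
    · simp [joinW, h]
  · simp [joinW, Jm]
  · simp [joinW, Jm]
  · by_cases h : i = j
    · subst h
      simp [joinW, Fintype.sum_sum_type]
      ring
    · simp [joinW, h]

/-- `F` are the forbidden pairs; the multiset is realised by a nonnegative weighting. -/
def Rz {V : Type*} [Fintype V] [DecidableEq V] (F : V → V → Prop) (s : Multiset ℝ) : Prop :=
  ∃ w : V → V → ℝ, (∀ i j, w i j = w j i) ∧ (∀ i j, 0 ≤ w i j) ∧ (∀ i, w i i = 0) ∧
    (∀ i j, F i j → w i j = 0) ∧ (lap w).charpoly = X * mp s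

theorem Rz.equiv {V V' : Type*} [Fintype V] [DecidableEq V] [Fintype V'] [DecidableEq V']
    (e : V' ≃ V) {F : V → V → Prop} {s : Multiset ℝ} (h : Rz F s) :
    Rz (fun i j => F (e i) (e j)) s := by
  obtain ⟨w, h1, h2, h3, h4, h5⟩ := h
  refine ⟨fun i j => w (e i) (e j), fun i j => h1 _ _, fun i j => h2 _ _, fun i => h3 _,
    fun i j hij => h4 _ _ hij, ?_⟩
  rw [← h5]
  have e1 : lap (fun i j => w (e i) (e j)) = (lap w).reindex e.symm e.symm := by
    ext i j
    simp only [lap, Matrix.sub_apply, Matrix.of_apply, Matrix.reindex_apply,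
      Matrix.submatrix_apply, Equiv.symm_symm]
    congr 1
    by_cases hij : i = j
    · subst hij
      simp only [Matrix.diagonal_apply_eq]
      exact Equiv.sum_comp e (fun k => w (e i) k)
    · rw [Matrix.diagonal_apply_ne _ hij, Matrix.diagonal_apply_ne _ (fun h => hij (e.injective h))]
  rw [e1, Matrix.charpoly_reindex]

theorem Rz.join {F : b → b → Prop} {F' : r → r → Prop} {s t : Multiset ℝ} (hs : Rz F s)
    (ht : Rz F' t) {w : ℝ} (hw : 0 ≤ w) :
    Rz (fun i j : b ⊕ r => match i, j with
      | Sum.inl i, Sum.inl j => F i j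
      | Sum.inr i, Sum.inr j => F' i j
      | _, _ => False)
      (((Fintype.card b + Fintype.card r) * w) ::ₘ
      (s.map (· + Fintype.card r * w) + t.map (· + Fintype.card b * w))) := by
  obtain ⟨u, h1, h2, h3, h4, h5⟩ := hs
  obtain ⟨v, g1, g2, g3, g4, g5⟩ := ht
  refine ⟨joinW u v w, ?_, ?_, ?_, ?_, ?_⟩
  · rintro (i | i) (j | j)
    · exact h1 i j
    · rfl
    · rfl
    · exact g1 i j
  · rintro (i | i) (j | j)
    · exact h2 i j
    · exact hw
    · exact hw
    · exact g2 i j
  · rintro (i | i)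
    · exact h3 i
    · exact g3 i
  · rintro (i | i) (j | j) hij
    · exact h4 i j hij
    · exact absurd hij id
    · exact absurd hij id
    · exact g4 i j hij
  · rw [lap_joinW]
    exact join_spec w (lap_row u) (lap_row v) h5 g5

theorem rz_single : Rz (V := Unit) (fun _ _ => False) 0 := by
  refine ⟨fun _ _ => 0, fun _ _ => rfl, fun _ _ => le_rfl, fun _ => rfl, fun _ _ h => rfl, ?_⟩
  rw [mp_zero, mul_one]
  have : lap (fun _ _ : Unit => (0 : ℝ)) = 0 := by
    ext i j
    simp [lap]
  rw [this, Matrix.charpoly_zero]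
  simp

theorem Rz.mono {V : Type*} [Fintype V] [DecidableEq V] {F F' : V → V → Prop} {s : Multiset ℝ}
    (h : Rz F s) (hF : ∀ i j, F' i j → F i j ∨ i = j) : Rz F' s := by
  obtain ⟨w, h1, h2, h3, h4, h5⟩ := h
  refine ⟨w, h1, h2, h3, fun i j hij => ?_, h5⟩
  rcases hF i j hij with h | h
  · exact h4 i j h
  · subst h
    exact h3 i

/-- complete graphs realise everything -/
theorem rz_complete_aux : ∀ (n : ℕ) (s : Multiset ℝ), s.card = n → (∀ a ∈ s, 0 ≤ a) →
    Rz (V := Fin (n + 1)) (fun _ _ => False) s := by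
  intro n
  induction n with
  | zero =>
    intro s hs _
    rw [Multiset.card_eq_zero] at hs
    subst hs
    have e : Fin (0 + 1) ≃ Unit := Fintype.equivOfCardEq (by simp)
    exact rz_single.equiv e
  | succ n ih =>
    intro s hs h0
    have hne : s ≠ 0 := by
      rintro rfl
      simp at hs
    obtain ⟨a, ha, hmin⟩ : ∃ a ∈ s, ∀ c ∈ s, a ≤ c := by
      have hf : s.toFinset.Nonempty := by
        rw [Multiset.toFinset_nonempty]; exact hne
      refine ⟨s.toFinset.min' hf, ?_, ?_⟩
      · exact Multiset.mem_toFinset.1 (Finset.min'_mem _ hf)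
      · intro c hc
        exact Finset.min'_le _ _ (Multiset.mem_toFinset.2 hc)
    obtain ⟨t, rfl⟩ := Multiset.exists_cons_of_mem ha
    have ha0 : 0 ≤ a := h0 a ha
    rw [Multiset.card_cons] at hs
    have htc : t.card = n := by omega
    set w : ℝ := a / (n + 2) with hw
    have hw0 : 0 ≤ w := by positivity
    have hwa : w ≤ a := by
      rw [hw]
      apply div_le_self ha0
      have : (0 : ℝ) ≤ n := Nat.cast_nonneg n
      linarith
    have h1 := ih (t.map (· - w)) (by rw [Multiset.card_map, htc]) (by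
      intro c hc
      obtain ⟨x, hx, rfl⟩ := Multiset.mem_map.1 hc
      have := hmin x (Multiset.mem_cons_of_mem hx)
      simp only [sub_nonneg]
      linarith)
    have h2 := rz_single.join h1 hw0
    have e : Fin (n + 1 + 1) ≃ Unit ⊕ Fin (n + 1) := Fintype.equivOfCardEq (by simp; ring)
    have h3 := h2.equiv e
    have e1 : ((((Fintype.card Unit : ℕ) : ℝ) + ((Fintype.card (Fin (n + 1)) : ℕ) : ℝ)) * w) ::ₘ
      ((0 : Multiset ℝ).map (· + (Fintype.card (Fin (n + 1)) : ℕ) * w) +
        (t.map (· - w)).map (· + (Fintype.card Unit : ℕ) * w)) = a ::ₘ t := by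
      congr 1
      · simp only [Fintype.card_unit, Fintype.card_fin]
        push_cast
        rw [hw]
        field_simp
        ring
      · rw [Multiset.map_zero, zero_add, Multiset.map_map]
        conv_rhs => rw [← Multiset.map_id t]
        refine Multiset.map_congr rfl fun x _ => ?_
        simp
    rw [e1] at h3
    exact h3.mono (fun _ _ h => absurd h id)

theorem rz_complete {V : Type*} [Fintype V] [DecidableEq V] {s : Multiset ℝ}
    (hs : Fintype.card V = s.card + 1) (h0 : ∀ a ∈ s, 0 ≤ a) :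
    Rz (V := V) (fun _ _ => False) s := by
  have e : V ≃ Fin (s.card + 1) := Fintype.equivOfCardEq (by simp [hs])
  exact (rz_complete_aux s.card s rfl h0).equiv e

end Pool.Agent.R450.Sp
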