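import Pool.Agent.R450.Sp.Vol
import Pool.Agent.R450.Sp.Good

/-!
The good event has probability tending to one.
-/

namespace Pool.Agent.R450.Sp

open MeasureTheory Filter Topology
open scoped ENNReal

theorem pow_lim (b : ℝ) : Tendsto (fun d : ℕ => (1 - b / (d : ℝ)) ^ d) atTop
    (𝓝 (Real.exp (-b))) := by
  have h := Real.tendsto_one_add_div_pow_exp (-b)
  refine h.congr fun d => ?_
  rw [neg_div, ← sub_eq_add_neg]

theorem pp_lim (c : ℝ) : Tendsto (fun d : ℕ => pp d (c / (d : ℝ))) atTop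
    (𝓝 (Real.exp (-c) - Real.exp (-(2 * c)))) := by
  unfold pp
  refine (pow_lim c).sub ?_
  refine (pow_lim (2 * c)).congr fun d => ?_
  rw [mul_div_assoc]

theorem pp2_lim (c : ℝ) : Tendsto (fun d : ℕ => pp2 d (c / (d : ℝ))) atTop
    (𝓝 ((Real.exp (-c) - Real.exp (-(2 * c))) ^ 2)) := by
  have e : (Real.exp (-c) - Real.exp (-(2 * c))) ^ 2
      = Real.exp (-(2 * c)) - 2 * Real.exp (-(3 * c)) + Real.exp (-(4 * c)) := by
    have e1 : Real.exp (-(2 * c)) = Real.exp (-c) ^ 2 := by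
      rw [← Real.exp_nat_mul]; congr 1; push_cast; ring
    have e2 : Real.exp (-(3 * c)) = Real.exp (-c) ^ 3 := by
      rw [← Real.exp_nat_mul]; congr 1; push_cast; ring
    have e3 : Real.exp (-(4 * c)) = Real.exp (-c) ^ 4 := by
      rw [← Real.exp_nat_mul]; congr 1; push_cast; ring
    rw [e1, e2, e3]
    ring
  rw [e]
  unfold pp2
  refine ((?_ : Tendsto _ _ _).sub ((?_ : Tendsto _ _ _).const_mul 2)).add ?_
  · refine (pow_lim (2 * c)).congr fun d => ?_
    rw [mul_div_assoc]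
  · refine (pow_lim (3 * c)).congr fun d => ?_
    rw [mul_div_assoc]
  · refine (pow_lim (4 * c)).congr fun d => ?_
    rw [mul_div_assoc]

theorem noW_lim {c : ℝ} (hc : 0 < c) :
    Tendsto (fun d : ℕ => (nu d).real (noW d (c / (d : ℝ)))) atTop (𝓝 0) := by
  set P : ℝ := Real.exp (-c) - Real.exp (-(2 * c)) with hP
  have hP0 : 0 < P := by
    rw [hP, sub_pos]
    apply Real.exp_lt_exp.2
    linarith
  have h1 := pp_lim c
  have h2 := pp2_lim c
  rw [← hP] at h1 h2
  have h3 : Tendsto (fun d : ℕ => (1 : ℝ) / (d : ℝ)) atTop (𝓝 0) := tendsto_one_div_atTop_nhds_zero_nat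
  have hup : Tendsto (fun d : ℕ => (1 / (d : ℝ)) / pp d (c / (d : ℝ)) +
      (1 - 1 / (d : ℝ)) * (pp2 d (c / (d : ℝ)) / (pp d (c / (d : ℝ))) ^ 2) - 1) atTop (𝓝 0) := by
    have h4 := ((h3.div h1 hP0.ne').add (((tendsto_const_nhds (x := (1 : ℝ))).sub h3).mul
      (h2.div (h1.pow 2) (by positivity)))).sub (tendsto_const_nhds (x := (1 : ℝ)))
    have e : 0 / P + (1 - 0) * (P ^ 2 / P ^ 2) - 1 = 0 := by
      rw [div_self (by positivity)]
      ring
    rw [e] at h4
    exact h4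
  refine squeeze_zero' (Eventually.of_forall fun d => measureReal_nonneg) ?_ hup
  have h5 : ∀ᶠ d : ℕ in atTop, 0 < pp d (c / (d : ℝ)) := h1.eventually (lt_mem_nhds hP0)
  have h6 : ∀ᶠ d : ℕ in atTop, 4 * c < (d : ℝ) :=
    tendsto_natCast_atTop_atTop.eventually (eventually_gt_atTop (4 * c))
  filter_upwards [h5, h6] with d hd1 hd2
  have hd0 : (0 : ℝ) < d := by linarith
  have h7 := chebyshev (d := d) (a := c / (d : ℝ)) (by positivity) (by
    rw [← mul_div_assoc, div_lt_one hd0]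
    exact hd2)
  have h8 : 0 < (d * pp d (c / (d : ℝ))) ^ 2 := by positivity
  rw [mul_comm, ← le_div_iff₀ h8] at h7
  refine h7.trans (le_of_eq ?_)
  field_simp

theorem all_lim {δ : ℝ} (h0 : 0 < δ) (h1 : δ < 1) :
    Tendsto (fun d : ℕ => (nu d).real {x : Fin d → ℝ | ∀ i, δ / (d : ℝ) ≤ x i}) atTop (𝓝 0) := by
  have h2 : Tendsto (fun d : ℕ => (1 - δ) ^ d) atTop (𝓝 0) :=
    tendsto_pow_atTop_nhds_zero_of_lt_one (by linarith) (by linarith)
  refine h2.congr' ?_
  filter_upwards [eventually_gt_atTop 0] with d hd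
  have hd0 : (0 : ℝ) < d := by exact_mod_cast hd
  have e : (d : ℝ) * (δ / d) = δ := by field_simp
  rw [nu_all (by positivity) (by rw [e]; exact h1), e]

/-- good points -/
def GG (m d : ℕ) : Set (Fin d → ℝ) :=
  {x | (∀ k, k < m → ∃ i, win m (1 / (d : ℝ)) k ≤ x i ∧ x i < 2 * win m (1 / (d : ℝ)) k) ∧
    ∃ j, x j < win m (1 / (d : ℝ)) m / 4}

theorem GG_compl (m d : ℕ) : (GG m d)ᶜ = (⋃ k ∈ Finset.range m, noW d (win m (1 / (d : ℝ)) k)) ∪
    {x : Fin d → ℝ | ∀ i, win m (1 / (d : ℝ)) m / 4 ≤ x i} := by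
  ext x
  simp only [GG, Set.mem_compl_iff, Set.mem_ofPred_eq, Set.mem_union, Set.mem_iUnion,
    Finset.mem_range, noW, exists_prop, not_and_or, not_forall, not_exists, not_lt, not_le]

theorem all_meas {d : ℕ} (b : ℝ) : MeasurableSet {x : Fin d → ℝ | ∀ i, b ≤ x i} := by
  simp only [Set.ofPred_forall]
  exact MeasurableSet.iInter fun i => EE_meas b i

theorem GG_meas (m d : ℕ) : MeasurableSet (GG m d) := by
  rw [← MeasurableSet.compl_iff, GG_compl]
  exact (Finset.measurableSet_biUnion _ fun k _ => noW_meas d _).union (all_meas _)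

theorem GG_lim (m : ℕ) : Tendsto (fun d : ℕ => (nu d).real (GG m d)) atTop (𝓝 1) := by
  have hR := one_le_R0 m
  have hwin : ∀ (d k : ℕ), win m (1 / (d : ℝ)) k = (1 / (4 * R0 m) ^ k) / (d : ℝ) := by
    intro d k
    unfold win
    rw [div_div, div_div, mul_comm]
  have hwin4 : ∀ (d : ℕ), win m (1 / (d : ℝ)) m / 4 = (1 / (4 * R0 m) ^ m / 4) / (d : ℝ) := by
    intro d
    rw [hwin]
    ring
  have h1 : Tendsto (fun d : ℕ => ∑ k ∈ Finset.range m,
      (nu d).real (noW d (win m (1 / (d : ℝ)) k)) +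
      (nu d).real {x : Fin d → ℝ | ∀ i, win m (1 / (d : ℝ)) m / 4 ≤ x i}) atTop (𝓝 0) := by
    have h2 : Tendsto (fun d : ℕ => ∑ k ∈ Finset.range m,
      (nu d).real (noW d (win m (1 / (d : ℝ)) k))) atTop (𝓝 (∑ k ∈ Finset.range m, (0 : ℝ))) := by
      refine tendsto_finsetSum _ fun k _ => ?_
      simp only [hwin]
      exact noW_lim (by positivity)
    rw [Finset.sum_const_zero] at h2
    have h3 : Tendsto (fun d : ℕ =>
      (nu d).real {x : Fin d → ℝ | ∀ i, win m (1 / (d : ℝ)) m / 4 ≤ x i}) atTop (𝓝 0) := by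
      simp only [hwin4]
      apply all_lim (by positivity)
      have h4 : 1 / (4 * R0 m) ^ m ≤ 1 := by
        rw [div_le_one (by positivity)]
        exact one_le_pow₀ (by linarith)
      linarith
    have := h2.add h3
    rwa [add_zero] at this
  have h2 : Tendsto (fun d : ℕ => (nu d).real (GG m d)ᶜ) atTop (𝓝 0) := by
    refine squeeze_zero (fun d => measureReal_nonneg) (fun d => ?_) h1
    rw [GG_compl]
    refine (measureReal_union_le _ _).trans ?_
    apply add_le_add_left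
    exact measureReal_biUnion_finset_le _ _
  have h3 : ∀ d : ℕ, (nu d).real (GG m d) = 1 - (nu d).real (GG m d)ᶜ := by
    intro d
    rw [probReal_compl_eq_one_sub (GG_meas m d)]
    ring
  simp only [h3]
  have := (tendsto_const_nhds (x := (1 : ℝ))).sub h2
  rwa [sub_zero] at this

end Pool.Agent.R450.Sp
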