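import Pool.Agent.R450.Sp.Join

/-!
Stars realise well separated spectra.
-/

namespace Pool.Agent.R450.Sp

open Matrix Polynomial

/-- star weights -/
noncomputable def starW {ι : Type*} (y : ι → ℝ) : ι ⊕ Unit → ι ⊕ Unit → ℝ
  | Sum.inl i, Sum.inr _ => y i
  | Sum.inr _, Sum.inl i => y i
  | _, _ => 0

section
variable {ι : Type*} [Fintype ι] [DecidableEq ι]

theorem star_det (y : ι → ℝ) (x : ℝ) (hx : ∀ i, x - y i ≠ 0) :
    (Matrix.scalar (ι ⊕ Unit) x - lap (starW y)).det
      = (∏ i, (x - y i)) * (x - ∑ i, y i - ∑ i, y i * (y i / (x - y i))) := by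
  have e1 : Matrix.scalar (ι ⊕ Unit) x - lap (starW y)
      = fromBlocks (Matrix.diagonal fun i => x - y i) (Matrix.of fun i _ => y i)
        (Matrix.of fun _ i => y i) (Matrix.of fun _ _ => x - ∑ i, y i) := by
    unfold lap
    ext i j
    rcases i with i | i <;> rcases j with j | j
    · by_cases h : i = j
      · subst h
        simp [starW, Fintype.sum_sum_type]
      · simp [starW, h]
    · simp [starW]
    · simp [starW]
    · simp [starW, Fintype.sum_sum_type]
  have e2 : fromBlocks (Matrix.diagonal fun i => x - y i) (Matrix.of fun i _ => y i)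
        (Matrix.of fun _ i => y i) (Matrix.of fun _ _ => x - ∑ i, y i)
      = fromBlocks (Matrix.diagonal fun i => x - y i) 0 0 (1 : Matrix Unit Unit ℝ) *
        fromBlocks 1 (Matrix.of fun i _ => y i / (x - y i))
        (Matrix.of fun _ i => y i) (Matrix.of fun _ _ => x - ∑ i, y i) := by
    rw [Matrix.fromBlocks_multiply]
    simp only [Matrix.mul_one, Matrix.zero_mul, Matrix.one_mul, add_zero, zero_add]
    congr 1
    ext i j
    rw [Matrix.diagonal_mul]
    simp only [Matrix.of_apply]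
    rw [mul_div_cancel₀ _ (hx i)]
  rw [e1, e2, Matrix.det_mul, Matrix.det_fromBlocks_zero₂₁, Matrix.det_fromBlocks_one₁₁,
    Matrix.det_diagonal, Matrix.det_one, mul_one, Matrix.det_unique]
  simp [Matrix.mul_apply, Matrix.sub_apply]

theorem star_charpoly (y : ι → ℝ) :
    (lap (starW y)).charpoly = X * (C ((Fintype.card ι : ℝ) + 1) * (∏ i, (X - C (y i)))
      - X * derivative (∏ i, (X - C (y i)))) := by
  apply Polynomial.eq_of_infinite_eval_eq
  have hfin : (Set.range y).Finite := Set.toFinite _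
  refine hfin.infinite_compl.mono ?_
  intro x hx
  have hx1 : ∀ i, x - y i ≠ 0 := by
    intro i h
    apply hx
    exact ⟨i, by linarith⟩
  change eval x _ = eval x _
  rw [Matrix.eval_charpoly, star_det y x hx1, Polynomial.derivative_prod_finset]
  simp only [eval_mul, eval_sub, eval_X, eval_C, eval_prod, eval_finsetSum, derivative_sub,
    derivative_X, derivative_C, sub_zero, mul_one]
  have h1 : ∀ i, ∏ j ∈ Finset.univ.erase i, (x - y j) = (∏ j, (x - y j)) / (x - y i) := by
    intro i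
    rw [eq_div_iff (hx1 i), mul_comm]
    exact Finset.mul_prod_erase _ (fun j => x - y j) (Finset.mem_univ i)
  simp only [h1]
  set Q := ∏ j, (x - y j) with hQ
  have h2 : ∑ i, y i * (y i / (x - y i)) = ∑ i, (x * (x * (1 / (x - y i)) - 1) - y i) := by
    refine Finset.sum_congr rfl fun i _ => ?_
    have := hx1 i
    field_simp
    ring
  have h3 : ∑ i, Q / (x - y i) = Q * ∑ i, (1 / (x - y i)) := by
    rw [Finset.mul_sum]
    refine Finset.sum_congr rfl fun i _ => ?_
    ring
  rw [h2, h3, Finset.sum_sub_distrib, ← Finset.mul_sum, Finset.sum_sub_distrib, ← Finset.mul_sum]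
  simp only [Finset.sum_const, Finset.card_univ, nsmul_eq_mul, mul_one]
  ring

end

/-! ### elementary symmetric functions -/

/-- the elementary symmetric functions of `μ 0, …, μ (m-1)` -/
noncomputable def cc (μ : ℕ → ℝ) : ℕ → ℕ → ℝ
  | 0, 0 => 1
  | 0, (_ + 1) => 0
  | (_ + 1), 0 => 1
  | (m + 1), (k + 1) => cc μ m (k + 1) + μ m * cc μ m k

theorem cc_zero (μ : ℕ → ℝ) (m : ℕ) : cc μ m 0 = 1 := by
  cases m <;> rfl

theorem cc_lt (μ : ℕ → ℝ) : ∀ m k : ℕ, m < k → cc μ m k = 0 := by
  intro m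
  induction m with
  | zero =>
    intro k hk
    cases k with
    | zero => omega
    | succ k => rfl
  | succ m ih =>
    intro k hk
    cases k with
    | zero => omega
    | succ k =>
      rw [cc, ih (k + 1) (by omega), ih k (by omega)]
      ring

/-- partial products -/
noncomputable def MM (μ : ℕ → ℝ) (k : ℕ) : ℝ := ∏ i ∈ Finset.range k, μ i

theorem MM_succ (μ : ℕ → ℝ) (k : ℕ) : MM μ (k + 1) = MM μ k * μ k := Finset.prod_range_succ _ _

theorem MM_pos {μ : ℕ → ℝ} (hμ : ∀ k, 0 < μ k) (k : ℕ) : 0 < MM μ k :=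
  Finset.prod_pos fun i _ => hμ i

theorem cc_lower {μ : ℕ → ℝ} (hμ : ∀ k, 0 < μ k) : ∀ m k : ℕ, k ≤ m → MM μ k ≤ cc μ m k := by
  intro m
  induction m with
  | zero =>
    intro k hk
    obtain rfl : k = 0 := by omega
    simp [MM, cc_zero]
  | succ m ih =>
    intro k hk
    cases k with
    | zero => simp [MM, cc_zero]
    | succ k =>
      rw [cc, MM_succ]
      have h1 := ih k (by omega)
      have h2 : MM μ k * μ k ≤ cc μ m (k + 1) ∨ k = m := by
        rcases Nat.lt_or_ge k m with h | h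
        · left
          rw [← MM_succ]
          exact ih (k + 1) h
        · right
          omega
      have h3 := hμ m
      rcases h2 with h2 | h2
      · have h4 := MM_pos hμ k
        nlinarith
      · subst h2
        rw [cc_lt μ k (k + 1) (by omega)]
        nlinarith

theorem cc_upper {μ : ℕ → ℝ} (hμ : ∀ k, 0 < μ k) (ha : Antitone μ) :
    ∀ m k : ℕ, cc μ m k ≤ 2 ^ m * MM μ k := by
  intro m
  induction m with
  | zero =>
    intro k
    cases k with
    | zero => simp [MM, cc_zero]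
    | succ k =>
      rw [cc_lt μ 0 (k + 1) (by omega)]
      have := MM_pos hμ (k + 1)
      positivity
  | succ m ih =>
    intro k
    cases k with
    | zero =>
      simp only [MM, cc_zero, Finset.range_zero, Finset.prod_empty, mul_one]
      exact one_le_pow₀ (by norm_num)
    | succ k =>
      rcases Nat.lt_or_ge m k with h | h
      · rw [cc_lt μ (m + 1) (k + 1) (by omega)]
        have := MM_pos hμ (k + 1)
        positivity
      · rw [cc]
        have h1 := ih (k + 1)
        have h2 := ih k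
        have h3 := hμ m
        have h4 : μ m ≤ μ k := ha h
        have h5 := MM_pos hμ k
        rw [MM_succ] at h1 ⊢
        have h6 : μ m * cc μ m k ≤ μ m * (2 ^ m * MM μ k) := by
          exact mul_le_mul_of_nonneg_left h2 h3.le
        have h7 : μ m * (2 ^ m * MM μ k) ≤ μ k * (2 ^ m * MM μ k) := by
          apply mul_le_mul_of_nonneg_right h4
          positivity
        rw [pow_succ]
        nlinarith

theorem prod_eq_cc (μ : ℕ → ℝ) : ∀ m : ℕ, ∏ i ∈ Finset.range m, (X - C (μ i))
    = ∑ k ∈ Finset.range (m + 1), C ((-1) ^ k * cc μ m k) * X ^ (m - k) := by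
  intro m
  induction m with
  | zero => simp [cc_zero]
  | succ m ih =>
    rw [Finset.prod_range_succ, ih, Finset.sum_range_succ' _ (m + 1)]
    simp only [cc_zero, pow_zero, mul_one, Nat.sub_zero]
    have h1 : ∀ k ∈ Finset.range (m + 1), C ((-1) ^ (k + 1) * cc μ (m + 1) (k + 1)) *
        (X : ℝ[X]) ^ (m + 1 - (k + 1)) = C ((-1) ^ (k + 1) * cc μ m (k + 1)) * X ^ (m - k)
          - C (μ m) * (C ((-1) ^ k * cc μ m k) * X ^ (m - k)) := by
      intro k _
      rw [cc, Nat.add_sub_add_right]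
      simp only [map_mul, map_add, map_pow, map_neg, map_one]
      ring
    rw [Finset.sum_congr rfl h1, Finset.sum_sub_distrib, ← Finset.mul_sum]
    have h2 : ∑ k ∈ Finset.range (m + 1), C ((-1) ^ (k + 1) * cc μ m (k + 1)) *
        (X : ℝ[X]) ^ (m - k) + X ^ (m + 1)
        = X * ∑ k ∈ Finset.range (m + 1), C ((-1) ^ k * cc μ m k) * X ^ (m - k) := by
      rw [Finset.sum_range_succ, cc_lt μ m (m + 1) (by omega), Finset.sum_range_succ' _ m,
        mul_add, Finset.mul_sum]
      simp only [cc_zero, pow_zero, mul_one, Nat.sub_zero, mul_zero, map_zero, zero_mul, add_zero,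
        map_one, one_mul]
      rw [← pow_succ']
      congr 1
      refine Finset.sum_congr rfl fun k hk => ?_
      have hk' := Finset.mem_range.1 hk
      have : m - k = (m - (k + 1)) + 1 := by omega
      rw [this, pow_succ]
      ring
    rw [mul_sub, mul_comm _ (X : ℝ[X]), ← h2]
    simp only [map_one, one_mul]
    ring

/-- the candidate polynomial -/
noncomputable def qq (μ : ℕ → ℝ) (m : ℕ) : ℝ[X] :=
  ∑ k ∈ Finset.range (m + 1), C ((-1) ^ k * cc μ m k / ((k : ℝ) + 1)) * X ^ (m - k)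

theorem X_mul_deriv (a : ℝ) (n : ℕ) : X * derivative (C a * X ^ n) = C (a * n) * X ^ n := by
  rw [derivative_C_mul_X_pow]
  cases n with
  | zero => simp
  | succ n =>
    rw [Nat.add_sub_cancel, pow_succ]
    ring

theorem qq_spec (μ : ℕ → ℝ) (m : ℕ) :
    C ((m : ℝ) + 1) * qq μ m - X * derivative (qq μ m) = ∏ i ∈ Finset.range m, (X - C (μ i)) := by
  rw [prod_eq_cc]
  unfold qq
  rw [derivative_sum, Finset.mul_sum, Finset.mul_sum, ← Finset.sum_sub_distrib]
  refine Finset.sum_congr rfl fun k hk => ?_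
  have hk' : k ≤ m := by
    have := Finset.mem_range.1 hk
    omega
  rw [X_mul_deriv, ← mul_assoc, ← C_mul, ← sub_mul, ← C_sub]
  congr 2
  rw [Nat.cast_sub hk']
  have : (k : ℝ) + 1 ≠ 0 := by positivity
  field_simp
  ring

theorem qq_monic (μ : ℕ → ℝ) (m : ℕ) : (qq μ m).Monic ∧ (qq μ m).natDegree = m := by
  have h1 : qq μ m = X ^ m + ∑ k ∈ Finset.range m,
      C ((-1) ^ (k + 1) * cc μ m (k + 1) / (((k + 1 : ℕ) : ℝ) + 1)) * X ^ (m - (k + 1)) := by
    unfold qq
    rw [Finset.sum_range_succ' _ m, add_comm]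
    simp [cc_zero]
  have h2 : (∑ k ∈ Finset.range m, C ((-1) ^ (k + 1) * cc μ m (k + 1) /
      (((k + 1 : ℕ) : ℝ) + 1)) * (X : ℝ[X]) ^ (m - (k + 1))).degree < m := by
    refine lt_of_le_of_lt (Polynomial.degree_sum_le _ _) ?_
    rw [Finset.sup_lt_iff (by exact WithBot.bot_lt_coe m)]
    intro k hk
    have hk' := Finset.mem_range.1 hk
    refine lt_of_le_of_lt (Polynomial.degree_C_mul_X_pow_le _ _) ?_
    exact_mod_cast (by omega : m - (k + 1) < m)
  refine ⟨?_, ?_⟩
  · rw [h1]
    exact Polynomial.monic_X_pow_add h2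
  · rw [h1]
    apply Polynomial.natDegree_eq_of_degree_eq_some
    rw [Polynomial.degree_add_eq_left_of_degree_lt (by rw [Polynomial.degree_X_pow]; exact h2),
      Polynomial.degree_X_pow]

theorem qq_sign {μ : ℕ → ℝ} (hμ : ∀ k, 0 < μ k) (ha : Antitone μ) {m k : ℕ} (hk : k ≤ m) {ξ A : ℝ}
    (hξ : 0 < ξ) (hA : ((m : ℝ) + 1) ^ 2 * 2 ^ m ≤ A)
    (h1 : ∀ j, j < k → A * ξ ≤ μ j) (h2 : ∀ j, k ≤ j → A * μ j ≤ ξ) :
    0 < (-1) ^ k * (qq μ m).eval ξ := by
  have hA1 : 1 ≤ A := by
    refine le_trans ?_ hA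
    have h3 : (1 : ℝ) ≤ (m : ℝ) + 1 := by
      have : (0 : ℝ) ≤ m := Nat.cast_nonneg m
      linarith
    have h4 : (1 : ℝ) ≤ 2 ^ m := one_le_pow₀ (by norm_num)
    nlinarith [one_le_pow₀ (n := 2) h3]
  set T : ℕ → ℝ := fun j => MM μ j * ξ ^ (m - j) with hT
  have hTpos : ∀ j, 0 < T j := fun j => mul_pos (MM_pos hμ j) (pow_pos hξ _)
  have hup : ∀ j, j < k → A * T j ≤ T (j + 1) := by
    intro j hj
    simp only [hT]
    have e : m - j = (m - (j + 1)) + 1 := by omega
    rw [e, pow_succ, MM_succ]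
    have h3 := h1 j hj
    have h4 : 0 < MM μ j * ξ ^ (m - (j + 1)) := mul_pos (MM_pos hμ j) (pow_pos hξ _)
    nlinarith
  have hdown : ∀ j, k ≤ j → j < m → A * T (j + 1) ≤ T j := by
    intro j hj hjm
    simp only [hT]
    have e : m - j = (m - (j + 1)) + 1 := by omega
    rw [e, pow_succ, MM_succ]
    have h3 := h2 j hj
    have h4 : 0 < MM μ j * ξ ^ (m - (j + 1)) := mul_pos (MM_pos hμ j) (pow_pos hξ _)
    nlinarith
  have hup2 : ∀ j, ∀ i, i ≤ j → j ≤ k → T i ≤ T j := by
    intro j
    induction j with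
    | zero =>
      intro i hi _
      obtain rfl : i = 0 := by omega
      exact le_rfl
    | succ j ih =>
      intro i hi hj
      rcases Nat.lt_or_ge j i with h | h
      · obtain rfl : i = j + 1 := by omega
        exact le_rfl
      · have h3 := ih i h (by omega)
        have h4 := hup j (by omega)
        have h5 := hTpos j
        nlinarith
  have hdown2 : ∀ j, k ≤ j → j ≤ m → T j ≤ T k := by
    intro j
    induction j with
    | zero =>
      intro h _
      obtain rfl : k = 0 := by omega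
      exact le_rfl
    | succ j ih =>
      intro h h'
      rcases Nat.lt_or_ge j k with h3 | h3
      · obtain rfl : k = j + 1 := by omega
        exact le_rfl
      · have h4 := ih h3 (by omega)
        have h5 := hdown j h3 (by omega)
        have h6 := hTpos (j + 1)
        nlinarith
  have hall : ∀ j, j ≤ m → j ≠ k → A * T j ≤ T k := by
    intro j hj hjk
    rcases Nat.lt_or_ge j k with h | h
    · exact (hup j h).trans (hup2 k (j + 1) h le_rfl)
    · obtain ⟨i, rfl⟩ : ∃ i, j = i + 1 := ⟨j - 1, by omega⟩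
      exact (hdown i (by omega) (by omega)).trans (hdown2 i (by omega) (by omega))
  have hev : (-1) ^ k * (qq μ m).eval ξ = ∑ j ∈ Finset.range (m + 1),
      (-1) ^ k * ((-1) ^ j * cc μ m j / ((j : ℝ) + 1) * ξ ^ (m - j)) := by
    unfold qq
    rw [eval_finsetSum, Finset.mul_sum]
    refine Finset.sum_congr rfl fun j _ => ?_
    simp
  rw [hev, ← Finset.add_sum_erase _ _ (Finset.mem_range.2 (by omega : k < m + 1))]
  have hmain : T k / ((m : ℝ) + 1) ≤
      (-1) ^ k * ((-1) ^ k * cc μ m k / ((k : ℝ) + 1) * ξ ^ (m - k)) := by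
    have e : (-1 : ℝ) ^ k * ((-1) ^ k * cc μ m k / ((k : ℝ) + 1) * ξ ^ (m - k))
        = cc μ m k * ξ ^ (m - k) / ((k : ℝ) + 1) := by
      have : (-1 : ℝ) ^ k * (-1) ^ k = 1 := by rw [← mul_pow]; simp
      linear_combination (cc μ m k * ξ ^ (m - k) / ((k : ℝ) + 1)) * this
    rw [e]
    have h3 : T k ≤ cc μ m k * ξ ^ (m - k) :=
      mul_le_mul_of_nonneg_right (cc_lower hμ m k hk) (pow_pos hξ _).le
    have h4 : (k : ℝ) + 1 ≤ (m : ℝ) + 1 := by
      have : (k : ℝ) ≤ m := by exact_mod_cast hk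
      linarith
    have h5 : (0 : ℝ) < (k : ℝ) + 1 := by positivity
    exact div_le_div₀ ((hTpos k).le.trans h3) h3 h5 h4
  have hrest : -((m : ℝ) * (2 ^ m * (T k / A))) ≤ ∑ j ∈ (Finset.range (m + 1)).erase k,
      (-1) ^ k * ((-1) ^ j * cc μ m j / ((j : ℝ) + 1) * ξ ^ (m - j)) := by
    have h3 : ∀ j ∈ (Finset.range (m + 1)).erase k, -(2 ^ m * (T k / A)) ≤
        (-1) ^ k * ((-1) ^ j * cc μ m j / ((j : ℝ) + 1) * ξ ^ (m - j)) := by
      intro j hj
      rw [Finset.mem_erase, Finset.mem_range] at hj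
      have h4 := hall j (by omega) hj.1
      have h5 : T j ≤ T k / A := by
        rw [le_div_iff₀ (by linarith)]
        linarith
      have hcc0 : 0 ≤ cc μ m j := (MM_pos hμ j).le.trans (cc_lower hμ m j (by omega))
      have h6 : |(-1 : ℝ) ^ k * ((-1) ^ j * cc μ m j / ((j : ℝ) + 1) * ξ ^ (m - j))|
          ≤ 2 ^ m * (T k / A) := by
        rw [abs_mul, abs_mul, abs_div, abs_mul, abs_pow, abs_pow, abs_pow, abs_neg, abs_one,
          one_pow, one_pow, one_mul, one_mul, abs_of_nonneg hcc0, abs_of_pos hξ,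
          abs_of_pos (by positivity : (0 : ℝ) < (j : ℝ) + 1)]
        have h7 : cc μ m j / ((j : ℝ) + 1) ≤ cc μ m j := by
          apply div_le_self hcc0
          have : (0 : ℝ) ≤ j := Nat.cast_nonneg j
          linarith
        have h8 : cc μ m j / ((j : ℝ) + 1) * ξ ^ (m - j) ≤ 2 ^ m * MM μ j * ξ ^ (m - j) :=
          mul_le_mul_of_nonneg_right (h7.trans (cc_upper hμ ha m j)) (pow_pos hξ _).le
        calc cc μ m j / ((j : ℝ) + 1) * ξ ^ (m - j) ≤ 2 ^ m * MM μ j * ξ ^ (m - j) := h8
          _ = 2 ^ m * T j := by rw [hT]; ring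
          _ ≤ 2 ^ m * (T k / A) := mul_le_mul_of_nonneg_left h5 (by positivity)
      exact (abs_le.1 h6).1
    have h4 := Finset.card_nsmul_le_sum _ _ _ h3
    rw [Finset.card_erase_of_mem (Finset.mem_range.2 (by omega)), Finset.card_range,
      Nat.add_sub_cancel, nsmul_eq_mul] at h4
    linarith
  have hfin : 0 < T k / ((m : ℝ) + 1) - (m : ℝ) * (2 ^ m * (T k / A)) := by
    have h3 := hTpos k
    have h4 : (m : ℝ) * (2 ^ m * (T k / A)) < T k / ((m : ℝ) + 1) := by
      rw [lt_div_iff₀ (by positivity)]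
      have e : (m : ℝ) * (2 ^ m * (T k / A)) * ((m : ℝ) + 1)
          = ((m : ℝ) * ((m : ℝ) + 1) * 2 ^ m) * T k / A := by ring
      rw [e, div_lt_iff₀ (by linarith)]
      have h5 : (m : ℝ) * ((m : ℝ) + 1) * 2 ^ m < A := by
        refine lt_of_lt_of_le ?_ hA
        apply mul_lt_mul_of_pos_right _ (by positivity)
        have : (0 : ℝ) ≤ m := Nat.cast_nonneg m
        nlinarith
      nlinarith
    linarith
  linarith

theorem rz_star {m : ℕ} {μ : ℕ → ℝ} (hμ : ∀ k, 0 < μ k)
    (hsep : ∀ k, (((m : ℝ) + 1) ^ 2 * 2 ^ m) ^ 2 * μ (k + 1) ≤ μ k) :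
    Rz (V := Fin m ⊕ Unit) (fun i j => i.isLeft = true ∧ j.isLeft = true)
      ((Multiset.range m).map μ) := by
  set A : ℝ := ((m : ℝ) + 1) ^ 2 * 2 ^ m with hAdef
  have hA1 : 1 ≤ A := by
    have h3 : (1 : ℝ) ≤ (m : ℝ) + 1 := by
      have : (0 : ℝ) ≤ m := Nat.cast_nonneg m
      linarith
    have h4 : (1 : ℝ) ≤ 2 ^ m := one_le_pow₀ (by norm_num)
    nlinarith [one_le_pow₀ (n := 2) h3]
  have hstep : ∀ k, μ (k + 1) ≤ μ k := by
    intro k
    have h3 := hsep k
    have h4 := hμ (k + 1)
    have h5 : (1 : ℝ) ≤ A ^ 2 := one_le_pow₀ hA1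
    nlinarith
  have ha : Antitone μ := antitone_nat_of_succ_le hstep
  have hsign : ∀ k, k ≤ m → 0 < (-1) ^ k * (qq μ m).eval (A * μ k) := by
    intro k hk
    refine qq_sign hμ ha hk (by have := hμ k; positivity) le_rfl ?_ ?_
    · intro j hj
      obtain ⟨i, rfl⟩ : ∃ i, k = i + 1 := ⟨k - 1, by omega⟩
      have h3 := hsep i
      have h4 : μ i ≤ μ j := ha (by omega)
      nlinarith
    · intro j hj
      exact mul_le_mul_of_nonneg_left (ha hj) (by linarith)
  have hξ : ∀ j k, j ≤ k → A * μ k ≤ A * μ j := fun j k h =>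
    mul_le_mul_of_nonneg_left (ha h) (by linarith)
  have hroot : ∀ k, k < m → ∃ y, A * μ (k + 1) < y ∧ y < A * μ k ∧ (qq μ m).eval y = 0 := by
    intro k hk
    have h3 := hsign k hk.le
    have h4 := hsign (k + 1) hk
    have hc : ContinuousOn (fun x => (-1 : ℝ) ^ k * (qq μ m).eval x)
        (Set.Icc (A * μ (k + 1)) (A * μ k)) :=
      (continuous_const.mul (qq μ m).continuous).continuousOn
    have h5 := intermediate_value_Ioo (hξ k (k + 1) (by omega)) hc
    have h6 : (0 : ℝ) ∈ Set.Ioo ((-1 : ℝ) ^ k * (qq μ m).eval (A * μ (k + 1)))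
        ((-1 : ℝ) ^ k * (qq μ m).eval (A * μ k)) := by
      refine ⟨?_, h3⟩
      rw [pow_succ] at h4
      linarith
    obtain ⟨y, ⟨hy1, hy2⟩, hy3⟩ := h5 h6
    refine ⟨y, hy1, hy2, ?_⟩
    have h7 : (-1 : ℝ) ^ k ≠ 0 := pow_ne_zero _ (by norm_num)
    exact (mul_eq_zero.1 hy3).resolve_left h7
  choose! y hy1 hy2 hy3 using hroot
  have hinj : Set.InjOn y (Finset.range m : Set ℕ) := by
    have hlt : ∀ i j, i < j → j < m → y j < y i := by
      intro i j hij hj
      have h3 := hy2 j hj
      have h4 := hξ (i + 1) j hij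
      have h5 := hy1 i (by omega)
      linarith
    intro i hi j hj hij
    have hi' := Finset.mem_range.1 (Finset.mem_coe.1 hi)
    have hj' := Finset.mem_range.1 (Finset.mem_coe.1 hj)
    rcases lt_trichotomy i j with h | h | h
    · have := hlt i j h hj'
      linarith
    · exact h
    · have := hlt j i h hi'
      linarith
  have hmon : (∏ i ∈ Finset.range m, (X - C (y i))).Monic :=
    Polynomial.monic_prod_of_monic _ _ fun i _ => monic_X_sub_C _
  have hdeg : (∏ i ∈ Finset.range m, (X - C (y i))).natDegree = m := by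
    rw [Polynomial.natDegree_prod_of_monic _ _ fun i _ => monic_X_sub_C _]
    simp
  have hq : qq μ m = ∏ i ∈ Finset.range m, (X - C (y i)) := by
    obtain ⟨q1, q2⟩ := qq_monic μ m
    refine Polynomial.eq_of_degree_sub_lt_of_eval_index_eq (Finset.range m) hinj ?_ ?_
    · have e1 : (qq μ m).degree = (∏ i ∈ Finset.range m, (X - C (y i))).degree := by
        rw [Polynomial.degree_eq_natDegree q1.ne_zero, Polynomial.degree_eq_natDegree hmon.ne_zero,
          q2, hdeg]
      have h3 := Polynomial.degree_sub_lt_left e1 q1.ne_zero (by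
        rw [q1.leadingCoeff, hmon.leadingCoeff])
      rw [Polynomial.degree_eq_natDegree q1.ne_zero, q2] at h3
      rwa [Finset.card_range]
    · intro i hi
      rw [hy3 i (Finset.mem_range.1 hi), Polynomial.eval_prod]
      symm
      apply Finset.prod_eq_zero hi
      simp
  have hypos : ∀ i, i < m → 0 < y i := by
    intro i hi
    have h3 := hy1 i hi
    have h4 := hμ (i + 1)
    have : 0 < A * μ (i + 1) := by positivity
    linarith
  refine ⟨starW (fun i : Fin m => y i), ?_, ?_, ?_, ?_, ?_⟩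
  · rintro (i | i) (j | j) <;> rfl
  · rintro (i | i) (j | j)
    · exact le_rfl
    · exact (hypos i i.2).le
    · exact (hypos j j.2).le
    · exact le_rfl
  · rintro (i | i) <;> rfl
  · rintro (i | i) (j | j) ⟨h1, h2⟩
    · rfl
    · simp at h2
    · simp at h1
    · rfl
  · rw [star_charpoly, Fintype.card_fin]
    have e1 : ∏ i : Fin m, (X - C (y i)) = qq μ m := by
      rw [hq, Finset.prod_range]
    rw [e1, qq_spec]
    congr 1
    simp only [mp, Multiset.map_map, Function.comp_def]
    rfl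

end Pool.Agent.R450.Sp
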