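import Mathlib

/-!
The uniform distribution on the simplex: a second moment estimate.
-/

namespace Pool.Agent.R450.Sp

open MeasureTheory Filter Topology
open scoped ENNReal Pointwise

/-- the solid simplex -/
def SS (d : ℕ) : Set (Fin d → ℝ) := {x | (∀ i, 0 ≤ x i) ∧ ∑ i, x i ≤ 1}

theorem SS_closed (d : ℕ) : IsClosed (SS d) := by
  have h1 : IsClosed {x : Fin d → ℝ | ∀ i, 0 ≤ x i} := by
    simp only [Set.ofPred_forall]
    exact isClosed_iInter fun i => isClosed_le continuous_const (continuous_apply i)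
  have h2 : IsClosed {x : Fin d → ℝ | ∑ i, x i ≤ 1} :=
    isClosed_le (continuous_finsetSum _ fun i _ => continuous_apply i) continuous_const
  exact h1.inter h2

theorem SS_meas (d : ℕ) : MeasurableSet (SS d) := (SS_closed d).measurableSet

theorem SS_sub (d : ℕ) : SS d ⊆ Set.Icc 0 1 := by
  rintro x ⟨h1, h2⟩
  refine ⟨h1, fun i => ?_⟩
  exact (Finset.single_le_sum (fun j _ => h1 j) (Finset.mem_univ i)).trans h2

theorem SS_lt_top (d : ℕ) : volume (SS d) < ∞ :=
  lt_of_le_of_lt (measure_mono (SS_sub d)) (isCompact_Icc.measure_lt_top)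

theorem SS_pos (d : ℕ) : 0 < volume (SS d) := by
  have h1 : Set.pi Set.univ (fun _ : Fin d => Set.Ioo (0 : ℝ) (1 / (d + 1))) ⊆ SS d := by
    intro x hx
    have hx' : ∀ i, 0 < x i ∧ x i < 1 / ((d : ℝ) + 1) := fun i => hx i (Set.mem_univ i)
    refine ⟨fun i => (hx' i).1.le, ?_⟩
    calc ∑ i, x i ≤ ∑ _i : Fin d, 1 / ((d : ℝ) + 1) :=
          Finset.sum_le_sum fun i _ => (hx' i).2.le
      _ = d / ((d : ℝ) + 1) := by
          rw [Finset.sum_const, Finset.card_univ, Fintype.card_fin, nsmul_eq_mul]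
          ring
      _ ≤ 1 := by
          rw [div_le_one (by positivity)]
          linarith
  have h2 : IsOpen (Set.pi Set.univ (fun _ : Fin d => Set.Ioo (0 : ℝ) (1 / (d + 1)))) :=
    isOpen_set_pi Set.finite_univ fun _ _ => isOpen_Ioo
  have h3 : (Set.pi Set.univ (fun _ : Fin d => Set.Ioo (0 : ℝ) (1 / (d + 1)))).Nonempty := by
    refine ⟨fun _ => 1 / ((d : ℝ) + 1) / 2, fun i _ => ⟨by positivity, ?_⟩⟩
    exact half_lt_self (by positivity)
  exact (h2.measure_pos volume h3).trans_le (measure_mono h1)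

theorem vol_shift {d : ℕ} {v : Fin d → ℝ} (hv : ∀ i, 0 ≤ v i) (hv1 : ∑ i, v i < 1) :
    volume (SS d ∩ {x | ∀ i, v i ≤ x i}) = ENNReal.ofReal ((1 - ∑ i, v i) ^ d) * volume (SS d) := by
  have hr : 0 < 1 - ∑ i, v i := by linarith
  have h1 : SS d ∩ {x | ∀ i, v i ≤ x i} = (fun x => v + x) '' ((1 - ∑ i, v i) • SS d) := by
    ext x
    constructor
    · rintro ⟨⟨h1, h2⟩, h3⟩
      refine ⟨x - v, ?_, by simp⟩
      rw [Set.mem_smul_set_iff_inv_smul_mem₀ hr.ne']
      refine ⟨fun i => ?_, ?_⟩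
      · simp only [Pi.smul_apply, Pi.sub_apply, smul_eq_mul]
        have := h3 i
        exact mul_nonneg (inv_pos.2 hr).le (by linarith)
      · simp only [Pi.smul_apply, Pi.sub_apply, smul_eq_mul]
        rw [← Finset.mul_sum, Finset.sum_sub_distrib, inv_mul_le_iff₀ hr]
        linarith
    · rintro ⟨y, hy, rfl⟩
      rw [Set.mem_smul_set_iff_inv_smul_mem₀ hr.ne'] at hy
      obtain ⟨h1, h2⟩ := hy
      simp only [Pi.smul_apply, smul_eq_mul] at h1 h2
      have h3 : ∀ i, 0 ≤ y i := by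
        intro i
        have h4 := h1 i
        exact nonneg_of_mul_nonneg_right h4 (inv_pos.2 hr)
      rw [← Finset.mul_sum, inv_mul_le_iff₀ hr] at h2
      refine ⟨⟨fun i => add_nonneg (hv i) (h3 i), ?_⟩, fun i => ?_⟩
      · simp only [Pi.add_apply]
        rw [Finset.sum_add_distrib]
        linarith
      · simp only [Pi.add_apply]
        have := h3 i
        linarith
  rw [h1, Set.image_add_left, measure_preimage_add, Measure.addHaar_smul]
  congr 2
  rw [Module.finrank_fin_fun, abs_of_pos (pow_pos hr d)]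

/-- the uniform probability measure on the simplex -/
noncomputable def nu (d : ℕ) : Measure (Fin d → ℝ) := (volume (SS d))⁻¹ • volume.restrict (SS d)

theorem nu_apply {d : ℕ} {A : Set (Fin d → ℝ)} (hA : MeasurableSet A) :
    nu d A = (volume (SS d))⁻¹ * volume (SS d ∩ A) := by
  unfold nu
  rw [Measure.smul_apply, Measure.restrict_apply hA, Set.inter_comm, smul_eq_mul]

instance (d : ℕ) : IsProbabilityMeasure (nu d) := by
  constructor
  rw [nu_apply MeasurableSet.univ, Set.inter_univ,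
    ENNReal.inv_mul_cancel (SS_pos d).ne' (SS_lt_top d).ne]

theorem nu_shift {d : ℕ} {v : Fin d → ℝ} (hv : ∀ i, 0 ≤ v i) (hv1 : ∑ i, v i < 1)
    {A : Set (Fin d → ℝ)} (hA : MeasurableSet A) (hAv : SS d ∩ A = SS d ∩ {x | ∀ i, v i ≤ x i}) :
    (nu d).real A = (1 - ∑ i, v i) ^ d := by
  rw [measureReal_def, nu_apply hA, hAv, vol_shift hv hv1, mul_comm, mul_assoc,
    ENNReal.mul_inv_cancel (SS_pos d).ne' (SS_lt_top d).ne, mul_one,
    ENNReal.toReal_ofReal (pow_nonneg (by linarith) _)]

/-- the event that a coordinate is large -/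
def EE {d : ℕ} (b : ℝ) (i : Fin d) : Set (Fin d → ℝ) := {x | b ≤ x i}

theorem EE_meas {d : ℕ} (b : ℝ) (i : Fin d) : MeasurableSet (EE b i) :=
  measurableSet_le measurable_const (measurable_pi_apply i)

theorem nu_EE {d : ℕ} {b : ℝ} (hb : 0 ≤ b) (hb1 : b < 1) (i : Fin d) :
    (nu d).real (EE b i) = (1 - b) ^ d := by
  classical
  have h := nu_shift (v := Pi.single i b) (by
    intro j
    by_cases h : j = i
    · subst h; simpa using hb
    · simp [Pi.single_eq_of_ne h]) (by simpa [Finset.sum_pi_single'] using hb1) (EE_meas b i) (by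
    ext x
    constructor
    · rintro ⟨h1, h2⟩
      refine ⟨h1, fun j => ?_⟩
      by_cases h : j = i
      · subst h
        rw [Pi.single_eq_same]
        exact h2
      · rw [Pi.single_eq_of_ne h]; exact h1.1 j
    · rintro ⟨h1, h2⟩
      have := h2 i
      rw [Pi.single_eq_same] at this
      exact ⟨h1, this⟩)
  rw [h]
  simp

theorem nu_EE2 {d : ℕ} {b c : ℝ} (hb : 0 ≤ b) (hc : 0 ≤ c) (hb1 : b + c < 1) {i j : Fin d}
    (hij : i ≠ j) : (nu d).real (EE b i ∩ EE c j) = (1 - b - c) ^ d := by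
  classical
  have h := nu_shift (v := Pi.single i b + Pi.single j c) (by
    intro k
    have h1 : 0 ≤ (Pi.single i b : Fin d → ℝ) k := by
      by_cases h : k = i
      · subst h; simpa using hb
      · simp [Pi.single_eq_of_ne h]
    have h2 : 0 ≤ (Pi.single j c : Fin d → ℝ) k := by
      by_cases h : k = j
      · subst h; simpa using hc
      · simp [Pi.single_eq_of_ne h]
    exact add_nonneg h1 h2) (by
      simp only [Pi.add_apply]
      rw [Finset.sum_add_distrib]
      simpa using hb1) ((EE_meas b i).inter (EE_meas c j)) (by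
    ext x
    constructor
    · rintro ⟨h1, h2, h3⟩
      refine ⟨h1, fun k => ?_⟩
      by_cases h : k = i
      · subst h
        simp only [Pi.add_apply, Pi.single_eq_same, Pi.single_eq_of_ne hij, add_zero]
        exact h2
      · by_cases h' : k = j
        · subst h'
          simp only [Pi.add_apply, Pi.single_eq_same, Pi.single_eq_of_ne h, zero_add]
          exact h3
        · simp only [Pi.add_apply, Pi.single_eq_of_ne h, Pi.single_eq_of_ne h', zero_add]
          exact h1.1 k
    · rintro ⟨h1, h2⟩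
      have h3 := h2 i
      have h4 := h2 j
      simp only [Pi.add_apply, Pi.single_eq_same, Pi.single_eq_of_ne hij, add_zero] at h3
      simp only [Pi.add_apply, Pi.single_eq_same, Pi.single_eq_of_ne hij.symm, zero_add] at h4
      exact ⟨h1, h3, h4⟩)
  rw [h]
  simp only [Pi.add_apply]
  rw [Finset.sum_add_distrib]
  simp only [Finset.sum_pi_single', Finset.mem_univ, if_true]
  congr 1
  ring

theorem nu_all {d : ℕ} {b : ℝ} (hb : 0 ≤ b) (hb1 : d * b < 1) :
    (nu d).real {x | ∀ i, b ≤ x i} = (1 - d * b) ^ d := by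
  have hm : MeasurableSet {x : Fin d → ℝ | ∀ i, b ≤ x i} := by
    simp only [Set.ofPred_forall]
    exact MeasurableSet.iInter fun i => EE_meas b i
  have h := nu_shift (d := d) (v := fun _ => b) (fun _ => hb) (by simpa using hb1) hm rfl
  rw [h]
  simp

/-- the counting variable -/
noncomputable def ff {d : ℕ} (a : ℝ) (i : Fin d) (x : Fin d → ℝ) : ℝ :=
  (EE a i).indicator 1 x - (EE (2 * a) i).indicator 1 x

theorem ff_val {d : ℕ} {a : ℝ} (ha : 0 ≤ a) (i : Fin d) (x : Fin d → ℝ) :
    (ff a i x = 1 ∧ a ≤ x i ∧ x i < 2 * a) ∨ (ff a i x = 0 ∧ ¬(a ≤ x i ∧ x i < 2 * a)) := by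
  unfold ff
  by_cases h1 : a ≤ x i
  · by_cases h2 : 2 * a ≤ x i
    · right
      rw [Set.indicator_of_mem (show x ∈ EE a i from h1),
        Set.indicator_of_mem (show x ∈ EE (2 * a) i from h2)]
      refine ⟨by simp, fun h => ?_⟩
      linarith [h.2]
    · left
      rw [Set.indicator_of_mem (show x ∈ EE a i from h1),
        Set.indicator_of_notMem (show x ∉ EE (2 * a) i from h2)]
      exact ⟨by simp, h1, not_le.1 h2⟩
  · have h2 : ¬ 2 * a ≤ x i := fun h => h1 (by linarith)
    right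
    rw [Set.indicator_of_notMem (show x ∉ EE a i from h1),
        Set.indicator_of_notMem (show x ∉ EE (2 * a) i from h2)]
    exact ⟨by simp, fun h => h1 h.1⟩

theorem int_ind {d : ℕ} {A : Set (Fin d → ℝ)} (hA : MeasurableSet A) :
    Integrable (A.indicator (1 : (Fin d → ℝ) → ℝ)) (nu d) :=
  (integrable_const (1 : ℝ)).indicator hA

theorem int_ind_val {d : ℕ} {A : Set (Fin d → ℝ)} (hA : MeasurableSet A) :
    ∫ x, A.indicator (1 : (Fin d → ℝ) → ℝ) x ∂(nu d) = (nu d).real A := integral_indicator_one hA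

theorem ff_int {d : ℕ} (a : ℝ) (i : Fin d) : Integrable (ff a i) (nu d) :=
  (int_ind (EE_meas a i)).sub (int_ind (EE_meas (2 * a) i))

theorem ff_mean {d : ℕ} {a : ℝ} (ha : 0 ≤ a) (ha1 : 4 * a < 1) (i : Fin d) :
    ∫ x, ff a i x ∂(nu d) = (1 - a) ^ d - (1 - 2 * a) ^ d := by
  unfold ff
  rw [integral_sub (int_ind (EE_meas a i)) (int_ind (EE_meas (2 * a) i)),
    int_ind_val (EE_meas a i), int_ind_val (EE_meas (2 * a) i), nu_EE ha (by linarith),
    nu_EE (by linarith) (by linarith)]

theorem ff_sq {d : ℕ} {a : ℝ} (ha : 0 ≤ a) (i : Fin d) (x : Fin d → ℝ) :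
    ff a i x * ff a i x = ff a i x := by
  rcases ff_val ha i x with h | h
  · rw [h.1]; ring
  · rw [h.1]; ring

theorem ff_mul {d : ℕ} (a : ℝ) (i j : Fin d) (x : Fin d → ℝ) :
    ff a i x * ff a j x = (EE a i ∩ EE a j).indicator 1 x - (EE (2 * a) i ∩ EE a j).indicator 1 x
      - (EE a i ∩ EE (2 * a) j).indicator 1 x + (EE (2 * a) i ∩ EE (2 * a) j).indicator 1 x := by
  unfold ff
  simp only [Set.inter_indicator_one, Pi.mul_apply]
  ring

theorem ff_mul_int {d : ℕ} (a : ℝ) (i j : Fin d) :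
    Integrable (fun x => ff a i x * ff a j x) (nu d) := by
  simp only [ff_mul]
  exact ((((int_ind ((EE_meas a i).inter (EE_meas a j))).sub
    (int_ind ((EE_meas (2 * a) i).inter (EE_meas a j)))).sub
    (int_ind ((EE_meas a i).inter (EE_meas (2 * a) j)))).add
    (int_ind ((EE_meas (2 * a) i).inter (EE_meas (2 * a) j))))

theorem ff_mul_mean {d : ℕ} {a : ℝ} (ha : 0 ≤ a) (ha1 : 4 * a < 1) {i j : Fin d} (hij : i ≠ j) :
    ∫ x, ff a i x * ff a j x ∂(nu d)
      = (1 - 2 * a) ^ d - 2 * (1 - 3 * a) ^ d + (1 - 4 * a) ^ d := by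
  simp only [ff_mul]
  have m1 := (EE_meas a i).inter (EE_meas a j)
  have m2 := (EE_meas (2 * a) i).inter (EE_meas a j)
  have m3 := (EE_meas a i).inter (EE_meas (2 * a) j)
  have m4 := (EE_meas (2 * a) i).inter (EE_meas (2 * a) j)
  have i12 : Integrable (fun x => (EE a i ∩ EE a j).indicator (1 : (Fin d → ℝ) → ℝ) x
      - (EE (2 * a) i ∩ EE a j).indicator 1 x) (nu d) := (int_ind m1).sub (int_ind m2)
  have i123 : Integrable (fun x => (EE a i ∩ EE a j).indicator (1 : (Fin d → ℝ) → ℝ) x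
      - (EE (2 * a) i ∩ EE a j).indicator 1 x
      - (EE a i ∩ EE (2 * a) j).indicator 1 x) (nu d) := i12.sub (int_ind m3)
  rw [integral_add i123 (int_ind m4), integral_sub i12 (int_ind m3),
    integral_sub (int_ind m1) (int_ind m2), int_ind_val m1, int_ind_val m2, int_ind_val m3,
    int_ind_val m4, nu_EE2 ha ha (by linarith) hij, nu_EE2 (by linarith) ha (by linarith) hij,
    nu_EE2 ha (by linarith) (by linarith) hij,
    nu_EE2 (by linarith) (by linarith) (by linarith) hij]
  have e1 : 1 - a - a = 1 - 2 * a := by ring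
  have e2 : 1 - 2 * a - a = 1 - 3 * a := by ring
  have e3 : 1 - a - 2 * a = 1 - 3 * a := by ring
  have e4 : 1 - 2 * a - 2 * a = 1 - 4 * a := by ring
  rw [e1, e2, e3, e4]
  ring

/-- first moment of one coordinate -/
noncomputable def pp (d : ℕ) (a : ℝ) : ℝ := (1 - a) ^ d - (1 - 2 * a) ^ d

/-- pair moment -/
noncomputable def pp2 (d : ℕ) (a : ℝ) : ℝ :=
  (1 - 2 * a) ^ d - 2 * (1 - 3 * a) ^ d + (1 - 4 * a) ^ d

/-- no coordinate in the window -/
def noW (d : ℕ) (a : ℝ) : Set (Fin d → ℝ) := {x | ∀ i, ¬(a ≤ x i ∧ x i < 2 * a)}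

theorem noW_meas (d : ℕ) (a : ℝ) : MeasurableSet (noW d a) := by
  have : noW d a = ⋂ i, ((EE a i) \ (EE (2 * a) i))ᶜ := by
    ext x
    simp [noW, EE]
  rw [this]
  exact MeasurableSet.iInter fun i => ((EE_meas a i).diff (EE_meas (2 * a) i)).compl

theorem chebyshev {d : ℕ} {a : ℝ} (ha : 0 ≤ a) (ha1 : 4 * a < 1) :
    (d * pp d a) ^ 2 * (nu d).real (noW d a)
      ≤ d * pp d a + d * (d - 1) * pp2 d a - (d * pp d a) ^ 2 := by
  set M : ℝ := d * pp d a with hM
  have hX : Integrable (fun x => ∑ i, ff a i x) (nu d) :=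
    integrable_finsetSum _ fun i _ => ff_int a i
  have hXX : Integrable (fun x => ∑ i, ∑ j, ff a i x * ff a j x) (nu d) :=
    integrable_finsetSum _ fun i _ => integrable_finsetSum _ fun j _ => ff_mul_int a i j
  have e1 : ∫ x, ∑ i, ff a i x ∂(nu d) = M := by
    rw [integral_finsetSum _ fun i _ => ff_int a i]
    simp only [ff_mean ha ha1]
    simp only [Finset.sum_const, Finset.card_univ, Fintype.card_fin, nsmul_eq_mul, hM, pp]
  have e2 : ∫ x, ∑ i, ∑ j, ff a i x * ff a j x ∂(nu d) = d * pp d a + d * (d - 1) * pp2 d a := by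
    rw [integral_finsetSum _ fun i _ => integrable_finsetSum _ fun j _ => ff_mul_int a i j]
    have h1 : ∀ i : Fin d, ∫ x, ∑ j, ff a i x * ff a j x ∂(nu d)
        = pp d a + (d - 1) * pp2 d a := by
      intro i
      rw [integral_finsetSum _ fun j _ => ff_mul_int a i j,
        ← Finset.add_sum_erase _ _ (Finset.mem_univ i)]
      simp only [ff_sq ha]
      rw [ff_mean ha ha1]
      have h2 : ∀ j ∈ Finset.univ.erase i, ∫ x, ff a i x * ff a j x ∂(nu d) = pp2 d a := by
        intro j hj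
        exact ff_mul_mean ha ha1 (Finset.ne_of_mem_erase hj).symm
      rw [Finset.sum_congr rfl h2, Finset.sum_const, Finset.card_erase_of_mem (Finset.mem_univ i),
        Finset.card_univ, Fintype.card_fin, nsmul_eq_mul, Nat.cast_sub i.pos]
      simp [pp]
    simp only [h1]
    rw [Finset.sum_const, Finset.card_univ, Fintype.card_fin, nsmul_eq_mul]
    ring
  have hsub : Integrable (fun x => (∑ i, ∑ j, ff a i x * ff a j x) - 2 * M * (∑ i, ff a i x))
      (nu d) := hXX.sub (hX.const_mul _)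
  have hadd : Integrable (fun x => (∑ i, ∑ j, ff a i x * ff a j x) - 2 * M * (∑ i, ff a i x)
      + M ^ 2) (nu d) := hsub.add (integrable_const _)
  have h3 : ∫ x, (noW d a).indicator (fun _ => M ^ 2) x ∂(nu d) ≤
      ∫ x, ((∑ i, ∑ j, ff a i x * ff a j x) - 2 * M * (∑ i, ff a i x) + M ^ 2) ∂(nu d) := by
    apply integral_mono ((integrable_const _).indicator (noW_meas d a)) hadd
    intro x
    simp only
    have e3 : ∑ i, ∑ j, ff a i x * ff a j x = (∑ i, ff a i x) ^ 2 := by
      rw [sq, Finset.sum_mul_sum]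
    rw [e3]
    by_cases hx : x ∈ noW d a
    · rw [Set.indicator_of_mem hx]
      have e4 : ∑ i, ff a i x = 0 := by
        refine Finset.sum_eq_zero fun i _ => ?_
        rcases ff_val ha i x with h | h
        · exact absurd h.2 (hx i)
        · exact h.1
      rw [e4]
      linarith
    · rw [Set.indicator_of_notMem hx]
      nlinarith [sq_nonneg ((∑ i, ff a i x) - M)]
  rw [integral_indicator_const _ (noW_meas d a), smul_eq_mul,
    integral_add hsub (integrable_const _),
    integral_sub hXX (hX.const_mul _), integral_const_mul, e1, e2, integral_const] at h3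
  simp only [probReal_univ, smul_eq_mul, one_mul] at h3
  nlinarith

end Pool.Agent.R450.Sp
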